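import Pool.Agent.Helper59.HD5.QuintC
import Pool.Agent.Helper59.HD.Contr

/-!
# The classes modulo a circuit with five elements
-/

namespace Pool.Agent.Helper59.HD5

open Pool.Agent.Helper59.HD Pool.Agent.Helper29.SF

variable {V : Type} [AddCommGroup V] [Module ℝ V]

/-- F1. The classes, every one with two different elements. -/
theorem exists_cls {S : Set V} {L T : Submodule ℝ V} {c : Fin 5 → V}
    (h : Quint S L c) (hST : ∀ f ∈ S, f ∈ T) (hspan : Submodule.span ℝ S = T)
    (hI : Indec ⊥ T S) {ι : Type} [Fintype ι] (b : ι → V)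
    (hind : ∀ c : ι → ℝ, ∑ i, c i • b i ∈ L → c = 0)
    (hTb : L ⊔ Submodule.span ℝ (Set.range b) = T)
    (hcov : ∀ f ∈ S, f ∈ L ∨ ∃ j, f ∈ L ⊔ Submodule.span ℝ {b j}) :
    ∃ F F' : ι → V, Cls S L T F F' := by
  classical
  have hLT : L ≤ T := by rw [← hTb]; exact le_sup_left
  -- coordinates modulo `L`
  have hone : ∀ (j : ι) (s : ℝ), s • b j ∈ L → s = 0 := by
    intro j s hs
    have h1 := hind (Pi.single j s) (by
      rw [Finset.sum_eq_single j]
      · rw [Pi.single_eq_same]
        exact hs
      · intro i _ hi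
        rw [Pi.single_eq_of_ne hi, zero_smul]
      · intro h'
        exact absurd (Finset.mem_univ j) h')
    have h2 := congrFun h1 j
    rwa [Pi.single_eq_same] at h2
  -- the element `b j` is not in the span of the others and `L`
  have hnot : ∀ j, b j ∉ L ⊔ Submodule.span ℝ (b '' {i | i ≠ j}) := by
    intro j hj
    obtain ⟨l, hl, w, hw, hlw⟩ := Submodule.mem_sup.1 hj
    have hw' : ∃ y : ι → ℝ, y j = 0 ∧ w = ∑ i, y i • b i := by
      refine Submodule.span_induction (p := fun w _ => ∃ y : ι → ℝ, y j = 0 ∧ w = ∑ i, y i • b i)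
        ?_ ?_ ?_ ?_ hw
      · rintro _ ⟨i, hi, rfl⟩
        refine ⟨Pi.single i 1, by rw [Pi.single_eq_of_ne (Ne.symm hi)], ?_⟩
        rw [Finset.sum_eq_single i]
        · rw [Pi.single_eq_same, one_smul]
        · intro k _ hk
          rw [Pi.single_eq_of_ne hk, zero_smul]
        · intro h'
          exact absurd (Finset.mem_univ i) h'
      · exact ⟨0, rfl, by simp⟩
      · rintro u v _ _ ⟨y, hy, rfl⟩ ⟨z, hz, rfl⟩
        refine ⟨y + z, by rw [Pi.add_apply, hy, hz, add_zero], ?_⟩
        rw [← Finset.sum_add_distrib]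
        exact Finset.sum_congr rfl (fun i _ => by rw [Pi.add_apply, add_smul])
      · rintro a u _ ⟨y, hy, rfl⟩
        refine ⟨a • y, by rw [Pi.smul_apply, hy, smul_zero], ?_⟩
        rw [Finset.smul_sum]
        exact Finset.sum_congr rfl (fun i _ => by rw [Pi.smul_apply, smul_smul, smul_eq_mul])
    obtain ⟨y, hy, hwy⟩ := hw'
    have h1 := hind (Pi.single j 1 - y) (by
      have e : ∑ i, (Pi.single j 1 - y : ι → ℝ) i • b i = l := by
        have e1 : ∑ i, (Pi.single j (1 : ℝ) : ι → ℝ) i • b i = b j := by
          rw [Finset.sum_eq_single j]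
          · rw [Pi.single_eq_same, one_smul]
          · intro k _ hk
            rw [Pi.single_eq_of_ne hk, zero_smul]
          · intro h'
            exact absurd (Finset.mem_univ j) h'
        have e2 : ∑ i, (Pi.single j 1 - y : ι → ℝ) i • b i =
            ∑ i, (Pi.single j (1 : ℝ) : ι → ℝ) i • b i - ∑ i, y i • b i := by
          rw [← Finset.sum_sub_distrib]
          exact Finset.sum_congr rfl (fun i _ => by rw [Pi.sub_apply, sub_smul])
        rw [e2, e1, ← hwy, ← hlw]
        abel
      rw [e]
      exact hl)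
    have h2 := congrFun h1 j
    rw [Pi.sub_apply, Pi.single_eq_same, hy, sub_zero] at h2
    exact one_ne_zero h2
  -- an element of each class
  have hex : ∀ j, ∃ f ∈ S, f ∉ L ∧ f ∈ L ⊔ Submodule.span ℝ {b j} := by
    intro j
    by_contra hcon
    push Not at hcon
    apply hnot j
    have h1 : T ≤ L ⊔ Submodule.span ℝ (b '' {i | i ≠ j}) := by
      conv_lhs => rw [← hspan]
      rw [Submodule.span_le]
      intro f hf
      rcases hcov f hf with hL | ⟨i, hi⟩
      · exact (le_sup_left : L ≤ _) hL
      · by_cases hfL : f ∈ L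
        · exact (le_sup_left : L ≤ _) hfL
        · have hij : i ≠ j := by
            rintro rfl
            exact hcon f hf hfL hi
          refine (sup_le_sup_left (Submodule.span_mono ?_) L) hi
          rintro v rfl
          exact ⟨i, hij, rfl⟩
    apply h1
    rw [← hTb]
    exact (le_sup_right : Submodule.span ℝ (Set.range b) ≤ _)
      (Submodule.subset_span (Set.mem_range_self j))
  -- normal form of an element of a class
  have hnf : ∀ j f, f ∈ L ⊔ Submodule.span ℝ {b j} → ∃ s : ℝ, f - s • b j ∈ L := by
    intro j f hf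
    obtain ⟨l, hl, w, hw, hlw⟩ := Submodule.mem_sup.1 hf
    obtain ⟨s, rfl⟩ := Submodule.mem_span_singleton.1 hw
    exact ⟨s, by rw [← hlw, add_sub_cancel_right]; exact hl⟩
  have hF : ∀ j, ∃ F ∈ Gs S, F - b j ∈ L := by
    intro j
    obtain ⟨f, hf, hfL, hfj⟩ := hex j
    obtain ⟨s, hs⟩ := hnf j f hfj
    have hs0 : s ≠ 0 := by
      rintro rfl
      rw [zero_smul, sub_zero] at hs
      exact hfL hs
    refine ⟨s⁻¹ • f, ⟨f, hf, s⁻¹, rfl⟩, ?_⟩
    have e : s⁻¹ • f - b j = s⁻¹ • (f - s • b j) := by
      rw [smul_sub, smul_smul, inv_mul_cancel₀ hs0, one_smul]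
    rw [e]
    exact L.smul_mem _ hs
  choose F hFS hFb using hF
  -- every element of `S` outside `L` is a multiple of one congruent to `F j`
  have hcov2 : ∀ f ∈ S, f ∈ L ∨ ∃ j, ∃ t : ℝ, t ≠ 0 ∧ t • f - F j ∈ L := by
    intro f hf
    rcases hcov f hf with hL | ⟨j, hj⟩
    · exact Or.inl hL
    · by_cases hfL : f ∈ L
      · exact Or.inl hfL
      · right
        obtain ⟨s, hs⟩ := hnf j f hj
        have hs0 : s ≠ 0 := by
          rintro rfl
          rw [zero_smul, sub_zero] at hs
          exact hfL hs
        refine ⟨j, s⁻¹, inv_ne_zero hs0, ?_⟩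
        have e : s⁻¹ • f - F j = s⁻¹ • (f - s • b j) - (F j - b j) := by
          rw [smul_sub, smul_smul, inv_mul_cancel₀ hs0, one_smul]
          abel
        rw [e]
        exact L.sub_mem (L.smul_mem _ hs) (hFb j)
  have hindF : ∀ s : ι → ℝ, ∑ j, s j • F j ∈ L → s = 0 := by
    intro s hs
    apply hind
    have e : ∑ j, s j • b j = ∑ j, s j • F j - ∑ j, s j • (F j - b j) := by
      rw [← Finset.sum_sub_distrib]
      refine Finset.sum_congr rfl (fun j _ => ?_)
      rw [smul_sub]
      abel
    rw [e]
    exact L.sub_mem hs (L.sum_mem (fun j _ => L.smul_mem _ (hFb j)))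
  have hspF : L ⊔ Submodule.span ℝ (Set.range F) = T := by
    rw [← hTb]
    apply le_antisymm
    · apply sup_le le_sup_left
      rw [Submodule.span_le]
      rintro _ ⟨j, rfl⟩
      have e : F j = (F j - b j) + b j := by abel
      rw [e]
      exact Submodule.add_mem _ ((le_sup_left : L ≤ _) (hFb j))
        ((le_sup_right : Submodule.span ℝ (Set.range b) ≤ _)
          (Submodule.subset_span (Set.mem_range_self j)))
    · apply sup_le le_sup_left
      rw [Submodule.span_le]
      rintro _ ⟨j, rfl⟩
      have e : b j = F j - (F j - b j) := by abel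
      rw [e]
      exact Submodule.sub_mem _ ((le_sup_right : Submodule.span ℝ (Set.range F) ≤ _)
        (Submodule.subset_span (Set.mem_range_self j))) ((le_sup_left : L ≤ _) (hFb j))
  -- two different elements in each class
  have htwo : ∀ j, ∃ F' ∈ Gs S, F' - F j ∈ L ∧ F' ≠ F j := by
    intro j
    by_contra hcon
    push Not at hcon
    have hsplit := hI (Submodule.span ℝ {F j}) (L ⊔ Submodule.span ℝ (F '' {i | i ≠ j})) (by
      rw [← hspF]
      apply le_antisymm
      · apply sup_le
        · rw [Submodule.span_le]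
          rintro v rfl
          exact (le_sup_right : Submodule.span ℝ (Set.range F) ≤ _)
            (Submodule.subset_span (Set.mem_range_self j))
        · apply sup_le le_sup_left
          exact (Submodule.span_mono (Set.image_subset_range _ _)).trans le_sup_right
      · apply sup_le (le_sup_left.trans le_sup_right)
        rw [Submodule.span_le]
        rintro _ ⟨i, rfl⟩
        by_cases hij : i = j
        · rw [hij]
          exact (le_sup_left : Submodule.span ℝ {F j} ≤ _)
            (Submodule.subset_span (Set.mem_singleton _))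
        · exact (le_sup_right.trans le_sup_right : Submodule.span ℝ (F '' {i | i ≠ j}) ≤ _)
            (Submodule.subset_span ⟨i, hij, rfl⟩)) (by
      rw [eq_bot_iff]
      rintro v ⟨hv1, hv2⟩
      obtain ⟨s, rfl⟩ := Submodule.mem_span_singleton.1 hv1
      rw [Submodule.mem_bot]
      by_contra hne
      have hs0 : s ≠ 0 := by
        rintro rfl
        exact hne (zero_smul _ _)
      have h1 : F j ∈ L ⊔ Submodule.span ℝ (F '' {i | i ≠ j}) := by
        have := Submodule.smul_mem _ s⁻¹ hv2
        rwa [smul_smul, inv_mul_cancel₀ hs0, one_smul] at this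
      apply hnot j
      have h2 : L ⊔ Submodule.span ℝ (F '' {i | i ≠ j}) ≤
          L ⊔ Submodule.span ℝ (b '' {i | i ≠ j}) := by
        apply sup_le le_sup_left
        rw [Submodule.span_le]
        rintro _ ⟨i, hi, rfl⟩
        have e : F i = (F i - b i) + b i := by abel
        rw [e]
        exact Submodule.add_mem _ ((le_sup_left : L ≤ _) (hFb i))
          ((le_sup_right : Submodule.span ℝ (b '' {i | i ≠ j}) ≤ _)
            (Submodule.subset_span ⟨i, hi, rfl⟩))
      have e : b j = F j - (F j - b j) := by abel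
      rw [e]
      exact Submodule.sub_mem _ (h2 h1) ((le_sup_left : L ≤ _) (hFb j))) (by
      intro f hf
      rcases hcov2 f hf with hL | ⟨i, t, ht, hi⟩
      · exact Or.inr ((le_sup_left : L ≤ _) hL)
      · by_cases hij : i = j
        · left
          rw [hij] at hi
          have h1 := hcon (t • f) ⟨f, hf, t, rfl⟩ hi
          rw [Submodule.mem_span_singleton]
          exact ⟨t⁻¹, by rw [← h1, smul_smul, inv_mul_cancel₀ ht, one_smul]⟩
        · right
          have e : f = t⁻¹ • (t • f - F i) + t⁻¹ • F i := by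
            rw [← smul_add, sub_add_cancel, smul_smul, inv_mul_cancel₀ ht, one_smul]
          rw [e]
          exact Submodule.add_mem _ (Submodule.smul_mem _ _ ((le_sup_left : L ≤ _) hi))
            (Submodule.smul_mem _ _ ((le_sup_right : Submodule.span ℝ (F '' {i | i ≠ j}) ≤ _)
              (Submodule.subset_span ⟨i, hij, rfl⟩))))
    rcases hsplit with h1 | h1
    · have h2 : F j ∈ (⊥ : Submodule ℝ V) := by
        rw [← h1]
        exact Submodule.subset_span (Set.mem_singleton _)
      rw [Submodule.mem_bot] at h2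
      have h3 : (1 : ℝ) • b j ∈ L := by
        have e : (1 : ℝ) • b j = -(F j - b j) := by
          rw [h2, one_smul]
          abel
        rw [e]
        exact L.neg_mem (hFb j)
      exact one_ne_zero (hone j 1 h3)
    · have h2 : c 0 ∈ (⊥ : Submodule ℝ V) := by
        rw [← h1]
        exact (le_sup_left : L ≤ _) (h.memL 0)
      rw [Submodule.mem_bot] at h2
      have h3 := h.min ![1, 0, 0, 0, 0] (by
        rw [Fin.sum_univ_five]
        show (1 : ℝ) • c 0 + (0 : ℝ) • c 1 + (0 : ℝ) • c 2 + (0 : ℝ) • c 3 + (0 : ℝ) • c 4 = 0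
        rw [h2]
        simp) 0 1
      exact one_ne_zero h3
  choose F' hF'S hF'L hF'ne using htwo
  exact ⟨F, F', hFS, hF'S, hindF, hF'L, hF'ne, hspF, hcov2⟩

end Pool.Agent.Helper59.HD5
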