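import Pool.Agent.Helper59.HD5.Defs
import Pool.Agent.Helper59.HD.MainC

/-!
# Necessity: from circuits to pieces, direct sums and coordinates
-/

open scoped RealInnerProductSpace Topology

namespace Pool.Agent.Helper59.HD5

open Pool.Agent.Helper59.HD

/-- Transport of an admissible set of cells along an injective map. -/
theorem Piece.map {ι ι' : Type} {r : ℕ} {C : Set ι} {Cl : Set (Set ι)} (h : Piece r C Cl)
    {f : ι → ι'} (hf : Function.Injective f) :
    Piece r (f '' C) {S' | ∃ S ∈ Cl, S' = f '' S} := by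
  rcases h with ⟨hC, rfl⟩ | ⟨h3, t, ht, z, hz, z', hz', hzz, rfl⟩ | ⟨h4, s, hs, t, ht, A, rfl⟩
  · refine Or.inl ⟨by rw [Set.ncard_image_of_injective _ hf]; exact hC, ?_⟩
    ext S'
    constructor
    · rintro ⟨S, hS, rfl⟩
      rw [Set.mem_singleton_iff] at hS
      rw [hS]
      rfl
    · intro hS'
      exact ⟨C, rfl, hS'⟩
  · refine Or.inr (Or.inl ⟨h3, f t, ⟨t, ht, rfl⟩, f z, ⟨z, hz, rfl⟩, f z', ⟨z', hz', rfl⟩,
      fun hr => by rw [hzz hr], ?_⟩)
    ext S'
    constructor
    · rintro ⟨S, rfl | ⟨x, hx, rfl⟩, rfl⟩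
      · left
        rw [Set.image_insert_eq, Set.image_pair]
      · right
        exact ⟨f x, ⟨x, hx, rfl⟩, by rw [Set.image_pair]⟩
    · rintro (rfl | ⟨_, ⟨x, hx, rfl⟩, rfl⟩)
      · exact ⟨{t, z, z'}, Or.inl rfl, by rw [Set.image_insert_eq, Set.image_pair]⟩
      · exact ⟨{t, x}, Or.inr ⟨x, hx, rfl⟩, by rw [Set.image_pair]⟩
  · refine Or.inr (Or.inr ⟨h4, f s, ⟨s, hs, rfl⟩, f t, ⟨t, ht, rfl⟩, f '' A, ?_⟩)
    ext S'
    constructor
    · rintro ⟨S, rfl | ⟨x, hx, hxA, rfl⟩ | ⟨x, hx, hxA, rfl⟩, rfl⟩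
      · left
        rw [Set.image_pair]
      · right
        left
        exact ⟨f x, ⟨x, hx, rfl⟩, ⟨x, hxA, rfl⟩, by rw [Set.image_pair]⟩
      · right
        right
        refine ⟨f x, ⟨x, hx, rfl⟩, ?_, by rw [Set.image_pair]⟩
        rintro ⟨y, hy, hyx⟩
        exact hxA (hf hyx ▸ hy)
    · rintro (rfl | ⟨_, ⟨x, hx, rfl⟩, ⟨y, hy, hyx⟩, rfl⟩ | ⟨_, ⟨x, hx, rfl⟩, hxA, rfl⟩)
      · exact ⟨{s, t}, Or.inl rfl, by rw [Set.image_pair]⟩
      · exact ⟨{s, x}, Or.inr (Or.inl ⟨x, hx, hf hyx ▸ hy, rfl⟩), by rw [Set.image_pair]⟩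
      · exact ⟨{t, x}, Or.inr (Or.inr ⟨x, hx, fun h => hxA ⟨x, h, rfl⟩, rfl⟩),
          by rw [Set.image_pair]⟩

variable {V : Type} [AddCommGroup V] [Module ℝ V]

/-- Small configurations. -/
theorem has_single [FiniteDimensional ℝ V] {T : Submodule ℝ V} {S : Set V} {r : ℕ}
    (hS : ∀ f ∈ S, f ∈ T) (hR : Module.finrank ℝ T ≤ r) : HasPieces r T S := by
  classical
  set B := Module.finBasis ℝ T with hB
  have hC : ({i : Fin (Module.finrank ℝ T) | () = ()} : Set _) = Set.univ := by
    ext i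
    simp
  refine ⟨Fin (Module.finrank ℝ T), Unit, inferInstance, inferInstance, fun i => (B i : V),
    fun _ => (), fun _ => {{i | () = ()}}, ?_, ?_, ?_, ?_⟩
  · intro g
    refine Or.inl ⟨?_, rfl⟩
    show ({i : Fin (Module.finrank ℝ T) | () = ()} : Set _).ncard ≤ r
    rw [hC, Set.ncard_univ, Nat.card_eq_fintype_card, Fintype.card_fin]
    exact hR
  · intro c hc
    have h1 : ∑ i, c i • B i = 0 := by
      apply Subtype.ext
      rw [Submodule.coe_sum]
      simpa using hc
    ext i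
    exact Fintype.linearIndependent_iff.1 B.linearIndependent c h1 i
  · have h1 : Set.range (fun i => (B i : V)) = T.subtype '' Set.range B := by
      rw [← Set.range_comp]
      rfl
    rw [h1, ← Submodule.map_span, B.span_eq, Submodule.map_top, Submodule.range_subtype]
  · intro f hf
    right
    refine ⟨(), {i | () = ()}, rfl, ?_⟩
    have h1 : (fun i => (B i : V)) '' {j | () = ()} = T.subtype '' Set.range B := by
      rw [← Set.range_comp]
      ext v
      simp
    rw [h1, ← Submodule.map_span, B.span_eq, Submodule.map_top, Submodule.range_subtype]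
    exact hS f hf

/-- Direct sums. -/
theorem has_sum {T1 T2 : Submodule ℝ V} {S : Set V} {r : ℕ} (hinf : T1 ⊓ T2 = ⊥)
    (hS : ∀ f ∈ S, f ∈ T1 ∨ f ∈ T2) (H1 : HasPieces r T1 {f | f ∈ S ∧ f ∈ T1})
    (H2 : HasPieces r T2 {f | f ∈ S ∧ f ∈ T2}) : HasPieces r (T1 ⊔ T2) S := by
  classical
  obtain ⟨ι1, β1, hι1, hβ1, b1, grp1, Cl1, P1, i1, s1, e1⟩ := H1
  obtain ⟨ι2, β2, hι2, hβ2, b2, grp2, Cl2, P2, i2, s2, e2⟩ := H2
  have hl : ∀ g, {i | Sum.map grp1 grp2 i = Sum.inl g} = Sum.inl '' {i | grp1 i = g} := by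
    intro g
    ext i
    rcases i with i | i
    · constructor
      · intro hi
        exact ⟨i, Sum.inl_injective hi, rfl⟩
      · rintro ⟨j, hj, hji⟩
        rw [← hji]
        exact congrArg Sum.inl hj
    · constructor
      · intro hi
        exact absurd hi (by simp)
      · rintro ⟨j, _, hji⟩
        exact absurd hji (by simp)
  have hr : ∀ g, {i | Sum.map grp1 grp2 i = Sum.inr g} = Sum.inr '' {i | grp2 i = g} := by
    intro g
    ext i
    rcases i with i | i
    · constructor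
      · intro hi
        exact absurd hi (by simp)
      · rintro ⟨j, _, hji⟩
        exact absurd hji (by simp)
    · constructor
      · intro hi
        exact ⟨i, Sum.inr_injective hi, rfl⟩
      · rintro ⟨j, hj, hji⟩
        rw [← hji]
        exact congrArg Sum.inr hj
  refine ⟨ι1 ⊕ ι2, β1 ⊕ β2, inferInstance, inferInstance, Sum.elim b1 b2, Sum.map grp1 grp2,
    Sum.elim (fun g => {S' | ∃ S ∈ Cl1 g, S' = Sum.inl '' S})
      (fun g => {S' | ∃ S ∈ Cl2 g, S' = Sum.inr '' S}), ?_, ?_, ?_, ?_⟩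
  · rintro (g | g)
    · rw [hl g]
      exact (P1 g).map Sum.inl_injective
    · rw [hr g]
      exact (P2 g).map Sum.inr_injective
  · intro c hc
    rw [Fintype.sum_sum_type] at hc
    simp only [Sum.elim_inl, Sum.elim_inr] at hc
    have hm1 : ∑ i, c (Sum.inl i) • b1 i ∈ T1 := by
      rw [← s1]
      exact Submodule.sum_mem _ (fun i _ => Submodule.smul_mem _ _
        (Submodule.subset_span (Set.mem_range_self i)))
    have hm2 : ∑ i, c (Sum.inr i) • b2 i ∈ T2 := by
      rw [← s2]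
      exact Submodule.sum_mem _ (fun i _ => Submodule.smul_mem _ _
        (Submodule.subset_span (Set.mem_range_self i)))
    have h1 : ∑ i, c (Sum.inl i) • b1 i = 0 := by
      have : ∑ i, c (Sum.inl i) • b1 i ∈ T1 ⊓ T2 := by
        refine ⟨hm1, ?_⟩
        have : ∑ i, c (Sum.inl i) • b1 i = -∑ i, c (Sum.inr i) • b2 i :=
          eq_neg_of_add_eq_zero_left hc
        rw [this]
        exact T2.neg_mem hm2
      rw [hinf] at this
      exact (Submodule.mem_bot ℝ).1 this
    rw [h1, zero_add] at hc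
    have g1 := i1 _ h1
    have g2 := i2 _ hc
    ext i
    rcases i with i | i
    · exact congrFun g1 i
    · exact congrFun g2 i
  · rw [Set.Sum.elim_range, Submodule.span_union, s1, s2]
  · intro f hf
    rcases hS f hf with h' | h'
    · rcases e1 f ⟨hf, h'⟩ with h0 | ⟨g, D, hD, hx⟩
      · exact Or.inl h0
      · right
        refine ⟨Sum.inl g, Sum.inl '' D, ⟨D, hD, rfl⟩, Submodule.span_mono ?_ hx⟩
        rintro _ ⟨j, hj, rfl⟩
        exact ⟨Sum.inl j, ⟨j, hj, rfl⟩, rfl⟩
    · rcases e2 f ⟨hf, h'⟩ with h0 | ⟨g, D, hD, hx⟩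
      · exact Or.inl h0
      · right
        refine ⟨Sum.inr g, Sum.inr '' D, ⟨D, hD, rfl⟩, Submodule.span_mono ?_ hx⟩
        rintro _ ⟨j, hj, rfl⟩
        exact ⟨Sum.inr j, ⟨j, hj, rfl⟩, rfl⟩

/-- Stars. -/
theorem has_of_star {T : Submodule ℝ V} {S : Set V} {r : ℕ} (h3 : 3 ≤ r) (h : Star T S) :
    HasPieces r T S := by
  classical
  obtain ⟨κ, hκ, d, e, hind, hspan, hcov⟩ := h
  refine ⟨Option κ, Unit, inferInstance, inferInstance, fun o => o.elim d e, fun _ => (),
    fun _ => {D | D = {none, none, none} ∨ ∃ x ∈ {i : Option κ | () = ()}, D = {none, x}},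
    ?_, ?_, ?_, ?_⟩
  · intro g
    exact Or.inr (Or.inl ⟨h3, none, rfl, none, rfl, none, rfl, fun _ => rfl, rfl⟩)
  · intro c hc
    rw [Fintype.sum_option] at hc
    obtain ⟨h1, h2⟩ := hind (c none) (fun k => c (some k)) hc
    ext i
    rcases i with _ | i
    · exact h1
    · exact congrFun h2 i
  · rw [← hspan]
    congr 1
    ext v
    constructor
    · rintro ⟨o, rfl⟩
      rcases o with _ | o
      · exact Or.inl rfl
      · exact Or.inr ⟨o, rfl⟩
    · rintro (rfl | ⟨o, rfl⟩)
      · exact ⟨none, rfl⟩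
      · exact ⟨some o, rfl⟩
  · intro f hf
    right
    obtain ⟨k, hk⟩ := hcov f hf
    refine ⟨(), {none, some k}, Or.inr ⟨some k, rfl, rfl⟩, Submodule.span_mono ?_ hk⟩
    rintro v (rfl | rfl)
    · exact ⟨none, Or.inl rfl, rfl⟩
    · exact ⟨some k, Or.inr rfl, rfl⟩

/-- The induction over direct sums. -/
theorem has_pieces [FiniteDimensional ℝ V] (E : Set V) (r : ℕ)
    (hbig : ∀ T : Submodule ℝ V, Submodule.span ℝ {f | f ∈ E ∧ f ∈ T} = T →
      Indec ⊥ T {f | f ∈ E ∧ f ∈ T} → MaxC (r + 1) {f | f ∈ E ∧ f ∈ T} →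
      r + 1 ≤ Module.finrank ℝ T → HasPieces r T {f | f ∈ E ∧ f ∈ T}) : ∀ (n : ℕ)
    (T : Submodule ℝ V), Module.finrank ℝ T = n → Submodule.span ℝ {f | f ∈ E ∧ f ∈ T} = T →
    MaxC (r + 1) {f | f ∈ E ∧ f ∈ T} → HasPieces r T {f | f ∈ E ∧ f ∈ T} := by
  classical
  intro n
  induction n using Nat.strong_induction_on with
  | _ n ih =>
    intro T hn hspan hmax
    by_cases hsmall : Module.finrank ℝ T ≤ r
    · exact has_single (fun f hf => hf.2) hsmall
    by_cases hI : Indec ⊥ T {f | f ∈ E ∧ f ∈ T}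
    · exact hbig T hspan hI hmax (by omega)
    · unfold Indec at hI
      push Not at hI
      obtain ⟨T1, T2, hsup, hinf, hcov, h1U, h2U⟩ := hI
      have hT1T : T1 ≤ T := by rw [← hsup]; exact le_sup_left
      have hT2T : T2 ≤ T := by rw [← hsup]; exact le_sup_right
      have hT1ne : T1 ≠ T := by
        rintro rfl
        apply h2U
        rw [← hinf]
        exact (inf_eq_right.2 hT2T).symm
      have hT2ne : T2 ≠ T := by
        rintro rfl
        apply h1U
        rw [← hinf]
        exact (inf_eq_left.2 hT1T).symm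
      have f1 : Module.finrank ℝ T1 < Module.finrank ℝ T :=
        Submodule.finrank_lt_finrank_of_lt (lt_of_le_of_ne hT1T hT1ne)
      have f2 : Module.finrank ℝ T2 < Module.finrank ℝ T :=
        Submodule.finrank_lt_finrank_of_lt (lt_of_le_of_ne hT2T hT2ne)
      have hcover : T ≤ Submodule.span ℝ {f | f ∈ E ∧ f ∈ T1} ⊔
          Submodule.span ℝ {f | f ∈ E ∧ f ∈ T2} := by
        conv_lhs => rw [← hspan]
        rw [Submodule.span_le]
        intro f hf
        rcases hcov f hf with h | h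
        · exact (le_sup_left : Submodule.span ℝ {f | f ∈ E ∧ f ∈ T1} ≤ _)
            (Submodule.subset_span ⟨hf.1, h⟩)
        · exact (le_sup_right : Submodule.span ℝ {f | f ∈ E ∧ f ∈ T2} ≤ _)
            (Submodule.subset_span ⟨hf.1, h⟩)
      have hle1 : Submodule.span ℝ {f | f ∈ E ∧ f ∈ T1} ≤ T1 := by
        rw [Submodule.span_le]
        intro y hy
        exact hy.2
      have hle2 : Submodule.span ℝ {f | f ∈ E ∧ f ∈ T2} ≤ T2 := by
        rw [Submodule.span_le]
        intro y hy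
        exact hy.2
      have hsp1 : Submodule.span ℝ {f | f ∈ E ∧ f ∈ T1} = T1 := by
        apply le_antisymm hle1
        intro x hx
        obtain ⟨a, ha, b, hb, hab⟩ := Submodule.mem_sup.1 (hcover (hT1T hx))
        have hb0 : b = 0 := by
          have : b ∈ T1 ⊓ T2 := by
            refine ⟨?_, hle2 hb⟩
            have : b = x - a := by rw [← hab]; abel
            rw [this]
            exact T1.sub_mem hx (hle1 ha)
          rw [hinf] at this
          exact (Submodule.mem_bot ℝ).1 this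
        rw [← hab, hb0, add_zero]
        exact ha
      have hsp2 : Submodule.span ℝ {f | f ∈ E ∧ f ∈ T2} = T2 := by
        apply le_antisymm hle2
        intro x hx
        obtain ⟨a, ha, b, hb, hab⟩ := Submodule.mem_sup.1 (hcover (hT2T hx))
        have ha0 : a = 0 := by
          have : a ∈ T1 ⊓ T2 := by
            refine ⟨hle1 ha, ?_⟩
            have : a = x - b := by rw [← hab]; abel
            rw [this]
            exact T2.sub_mem hx (hle2 hb)
          rw [hinf] at this
          exact (Submodule.mem_bot ℝ).1 this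
        rw [← hab, ha0, zero_add]
        exact hb
      have H1 := ih _ (by omega) T1 rfl hsp1 (fun k hk hkS =>
        hmax k hk (fun y hy => ⟨(hkS y hy).1, hT1T (hkS y hy).2⟩))
      have H2 := ih _ (by omega) T2 rfl hsp2 (fun k hk hkS =>
        hmax k hk (fun y hy => ⟨(hkS y hy).1, hT2T (hkS y hy).2⟩))
      rw [← hsup] at hcov ⊢
      have e1 : {f | f ∈ {f | f ∈ E ∧ f ∈ T1 ⊔ T2} ∧ f ∈ T1} = {f | f ∈ E ∧ f ∈ T1} := by
        ext f
        constructor
        · rintro ⟨⟨h1, _⟩, h2⟩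
          exact ⟨h1, h2⟩
        · rintro ⟨h1, h2⟩
          exact ⟨⟨h1, (le_sup_left : T1 ≤ T1 ⊔ T2) h2⟩, h2⟩
      have e2 : {f | f ∈ {f | f ∈ E ∧ f ∈ T1 ⊔ T2} ∧ f ∈ T2} = {f | f ∈ E ∧ f ∈ T2} := by
        ext f
        constructor
        · rintro ⟨⟨h1, _⟩, h2⟩
          exact ⟨h1, h2⟩
        · rintro ⟨h1, h2⟩
          exact ⟨⟨h1, (le_sup_right : T2 ≤ T1 ⊔ T2) h2⟩, h2⟩
      apply has_sum hinf hcov
      · rw [e1]
        exact H1
      · rw [e2]
        exact H2

/-- From a basis adapted to the smooth normals to coordinates. -/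
theorem cut_of_pieces {n r : ℕ} {F : Set (EuclideanSpace ℝ (Fin n))} (h : SymBody F)
    (H : HasPieces r (⊤ : Submodule ℝ (EuclideanSpace ℝ (Fin n))) (Nrm F)) :
    ∃ (m : ℕ) (e : EuclideanSpace ℝ (Fin n) ≃ₗ[ℝ] (Fin n → ℝ)) (grp : Fin n → Fin m)
      (Cl : Fin m → Set (Set (Fin n))), (∀ g, Piece r {i | grp i = g} (Cl g)) ∧ Cut e Cl F := by
  classical
  obtain ⟨ι, β, hι, hβ, b, grp, Cl, hP, hind, hsp, hcov⟩ := H
  have hli : LinearIndependent ℝ b := Fintype.linearIndependent_iff.2 (fun c hc i =>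
    congrFun (hind c hc) i)
  have hcard : Fintype.card ι = n := by
    have := Module.finrank_eq_card_basis (Module.Basis.mk hli hsp.ge)
    rw [finrank_euclideanSpace_fin] at this
    exact this.symm
  set σ : Fin n ≃ ι := (Fintype.equivFinOfCardEq hcard).symm with hσ
  set L : EuclideanSpace ℝ (Fin n) →ₗ[ℝ] (Fin n → ℝ) :=
    { toFun := fun x i => ⟪b (σ i), x⟫
      map_add' := fun x y => by
        ext i
        simp [inner_add_right]
      map_smul' := fun t x => by
        ext i
        simp [inner_smul_right] } with hL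
  have hLapp : ∀ x i, L x i = ⟪b (σ i), x⟫ := fun x i => rfl
  have hperp : ∀ x, (∀ i, ⟪b (σ i), x⟫ = 0) → x = 0 := by
    intro x hx
    have h9 : x ∈ (Submodule.span ℝ (Set.range b))ᗮ := by
      rw [Submodule.mem_orthogonal]
      intro u hu
      refine Submodule.span_induction (p := fun u _ => ⟪u, x⟫ = 0) ?_ ?_ ?_ ?_ hu
      · rintro _ ⟨i, rfl⟩
        have := hx (σ.symm i)
        rwa [Equiv.apply_symm_apply] at this
      · exact inner_zero_left _
      · intro u v _ _ hu hv
        rw [inner_add_left, hu, hv, add_zero]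
      · intro a u _ hu
        rw [inner_smul_left, hu, mul_zero]
    rw [hsp, Submodule.top_orthogonal_eq_bot] at h9
    exact (Submodule.mem_bot ℝ).1 h9
  have hinj : Function.Injective L := by
    intro x y hxy
    have : x - y = 0 := hperp _ (fun i => by
      have := congrFun hxy i
      rw [hLapp, hLapp] at this
      rw [inner_sub_right, this, sub_self])
    exact sub_eq_zero.1 this
  set e : EuclideanSpace ℝ (Fin n) ≃ₗ[ℝ] (Fin n → ℝ) := L.linearEquivOfInjective hinj (by
    rw [finrank_euclideanSpace_fin, Module.finrank_fin_fun]) with he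
  have heapp : ∀ x i, e x i = ⟪b (σ i), x⟫ := fun x i => rfl
  set m := Fintype.card β with hm
  set τ : Fin m ≃ β := (Fintype.equivFin β).symm with hτ
  refine ⟨m, e, fun i => τ.symm (grp (σ i)),
    fun g => {S' | ∃ S ∈ Cl (τ g), S' = σ.symm '' S}, ?_, ?_⟩
  · intro g
    have h1 : {i | τ.symm (grp (σ i)) = g} = σ.symm '' {i | grp i = τ g} := by
      ext i
      constructor
      · intro hi
        exact ⟨σ i, τ.symm_apply_eq.1 hi, σ.symm_apply_apply i⟩
      · rintro ⟨j, hj, rfl⟩
        show τ.symm (grp (σ (σ.symm j))) = g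
        rw [σ.apply_symm_apply, τ.symm_apply_eq]
        exact hj
    rw [h1]
    exact (hP (τ g)).map σ.symm.injective
  · intro x hx
    rw [h.mem_iff]
    by_contra hcon
    push Not at hcon
    obtain ⟨g, hg, hg1⟩ := exists_nrm h x hcon
    rcases hcov g hg with hgb | ⟨q, D, hD, hi⟩
    · rw [hgb, inner_zero_left] at hg1
      linarith
    · obtain ⟨z, hz, hzj⟩ := hx (τ.symm q) (σ.symm '' D) ⟨D, by rwa [τ.apply_symm_apply], rfl⟩
      have h10 : ⟪g, z - x⟫ = 0 := by
        refine Submodule.span_induction (p := fun u _ => ⟪u, z - x⟫ = 0) ?_ ?_ ?_ ?_ hi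
        · rintro _ ⟨j, hj, rfl⟩
          have h11 := hzj (σ.symm j) ⟨j, hj, rfl⟩
          rw [heapp, heapp, Equiv.apply_symm_apply] at h11
          rw [inner_sub_right, h11, sub_self]
        · exact inner_zero_left _
        · intro u v _ _ hu hv
          rw [inner_add_left, hu, hv, add_zero]
        · intro a u _ hu
          rw [inner_smul_left, hu, mul_zero]
      rw [inner_sub_right] at h10
      have h12 := nrm_le h hg z
      have h13 := (h.mem_iff z).1 hz
      linarith

/-- Necessity for `r ≤ 2`. -/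
theorem cut_small {n r : ℕ} (hr : 1 ≤ r) (hr2 : r ≤ 2)
    {F : Set (EuclideanSpace ℝ (Fin n))} (h : SymBody F) (hSz : Sz r F) :
    ∃ (m : ℕ) (e : EuclideanSpace ℝ (Fin n) ≃ₗ[ℝ] (Fin n → ℝ)) (grp : Fin n → Fin m)
      (Cl : Fin m → Set (Set (Fin n))), (∀ g, Piece r {i | grp i = g} (Cl g)) ∧ Cut e Cl F := by
  classical
  obtain ⟨m, e, blk, le, hF, hD, hb, hdrop⟩ := decomp_of_symBody hr h hSz
  refine ⟨m, e, blk, fun g => {{i | blk i = g}}, fun g => Or.inl ⟨?_, rfl⟩, ?_⟩
  · have h1 := (hb g).2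
    unfold bdim at h1
    rw [← Set.ncard_coe_finset] at h1
    have h2 : {i | blk i = g} = ((Finset.univ.filter (fun i => blk i = g) : Finset (Fin n)) :
        Set (Fin n)) := by
      ext i
      simp
    rw [h2]
    exact h1
  · intro x hx
    apply hD
    intro y
    obtain ⟨z, hz, hzi⟩ := hx y {i | blk i = y} rfl
    refine ⟨z, hz, fun i hi => hzi i ?_⟩
    by_contra hne
    have h5 := hdrop (blk i) y hi hne
    have h6 := (hb y).1
    have h7 := (hb (blk i)).2
    omega

end Pool.Agent.Helper59.HD5
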