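import Pool.Agent.Helper59.HD.Defs
import Pool.Agent.Helper59.HD.Geo
import Pool.Agent.Helper59.HD.Star

/-!
# Definitions for MP_541d70_co: groups of coordinates and their cells, `r ≤ 4`
-/

namespace Pool.Agent.Helper59.HD5

/-- The admissible sets of cells (sets of coordinates) for a group `C` of coordinates:
* at most `r` coordinates, the only cell is `C`;
* `r ≥ 3`: the pairs `{t, x}` with `x ∈ C`, for a fixed `t ∈ C`, and, if `r ≥ 4`, one more cell
  `{t, z, z'}`;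
* `r ≥ 4`: for fixed `s, t ∈ C` the cell `{s, t}` and for each `x ∈ C` the cell `{s, x}` (if `x` is
  in `A`) or the cell `{t, x}` (if not). -/
def Piece {ι : Type} (r : ℕ) (C : Set ι) (Cl : Set (Set ι)) : Prop :=
  (C.ncard ≤ r ∧ Cl = {C}) ∨
  (3 ≤ r ∧ ∃ t ∈ C, ∃ z ∈ C, ∃ z' ∈ C, (r = 3 → z = z') ∧
    Cl = {S | S = {t, z, z'} ∨ ∃ x ∈ C, S = {t, x}}) ∨
  (4 ≤ r ∧ ∃ s ∈ C, ∃ t ∈ C, ∃ A : Set ι,
    Cl = {S | S = {s, t} ∨ (∃ x ∈ C, x ∈ A ∧ S = {s, x}) ∨ ∃ x ∈ C, x ∉ A ∧ S = {t, x}})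

/-- In the linear coordinates `e`, the set `F` is the intersection of the cylinders over its
projections to the cells: a point `x` belongs to `F` as soon as for every cell `S` it agrees on the
coordinates in `S` with some point of `F`. -/
def Cut {n m : ℕ} (e : EuclideanSpace ℝ (Fin n) ≃ₗ[ℝ] (Fin n → ℝ))
    (Cl : Fin m → Set (Set (Fin n))) (F : Set (EuclideanSpace ℝ (Fin n))) : Prop :=
  ∀ x, (∀ g, ∀ S ∈ Cl g, ∃ z ∈ F, ∀ i ∈ S, e z i = e x i) → x ∈ F

/-- Necessity, linear algebra form: a basis `b` of `T` in groups with admissible cells, every vector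
of `S` is in the span of one cell. -/
def HasPieces {V : Type} [AddCommGroup V] [Module ℝ V] (r : ℕ) (T : Submodule ℝ V) (S : Set V) :
    Prop :=
  ∃ (ι β : Type) (_ : Fintype ι) (_ : Fintype β) (b : ι → V) (grp : ι → β)
    (Cl : β → Set (Set ι)),
    (∀ g, Piece r {i | grp i = g} (Cl g)) ∧
    (∀ c : ι → ℝ, ∑ i, c i • b i = 0 → c = 0) ∧ Submodule.span ℝ (Set.range b) = T ∧
    ∀ f ∈ S, f = 0 ∨ ∃ g, ∃ D ∈ Cl g, f ∈ Submodule.span ℝ (b '' D)

/-- Every circuit in (multiples of elements of) `S` has at most `c` elements. -/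
def MaxC {V : Type} [AddCommGroup V] [Module ℝ V] (c : ℕ) (S : Set V) : Prop :=
  ∀ k : V →₀ ℝ, Pool.Agent.Helper59.HD.Circ ⊥ k → (∀ y, k y ≠ 0 → y ∈ S) → k.support.card ≤ c

end Pool.Agent.Helper59.HD5
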