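import Pool.Agent.Helper59.HD5.Defs
import Pool.Agent.Helper59.HD.Contr

/-!
# Frame for the symmetric classification, `r ≤ 4` (MP_541d70_co)
-/

namespace Pool.Agent.Helper59.HD5.Frame

open Pool.Agent.Helper59.HD

variable {V : Type} [AddCommGroup V] [Module ℝ V]

/-- Necessity, the main step (helper29). -/
theorem big_piece [FiniteDimensional ℝ V] (E : Set V) (hE : ∀ f ∈ E, -f ∈ E)
    (T : Submodule ℝ V) (hspan : Submodule.span ℝ {f | f ∈ E ∧ f ∈ T} = T)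
    (hI : Indec ⊥ T {f | f ∈ E ∧ f ∈ T}) (hmax : MaxC 5 {f | f ∈ E ∧ f ∈ T})
    (h5 : 5 ≤ Module.finrank ℝ T) : HasPieces 4 T {f | f ∈ E ∧ f ∈ T} := by
  sorry

/-- Sufficiency (helper59). -/
theorem sz_of_cut {n m r : ℕ} (hr : 1 ≤ r) (hr4 : r ≤ 4) {F : Set (EuclideanSpace ℝ (Fin n))}
    (hF : Convex ℝ F) (e : EuclideanSpace ℝ (Fin n) ≃ₗ[ℝ] (Fin n → ℝ)) (grp : Fin n → Fin m)
    (Cl : Fin m → Set (Set (Fin n))) (hP : ∀ g, Piece r {i | grp i = g} (Cl g))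
    (hC : Cut e Cl F) : Sz r F := by
  sorry

end Pool.Agent.Helper59.HD5.Frame
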