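import Pool.Agent.Helper59.HD5.Suff
import Pool.Agent.Helper59.HD5.Nec
import Pool.Agent.Helper29.SF.Big

/-!
# Classification of centrally symmetric convex bodies with property `Sz(r)`, `r ≤ 4`
-/

namespace Pool.Agent.Helper59.HD5

open Pool.Agent.Helper59.HD

theorem cut_recentre {n m : ℕ} {F : Set (EuclideanSpace ℝ (Fin n))}
    (c : EuclideanSpace ℝ (Fin n)) {e : EuclideanSpace ℝ (Fin n) ≃ₗ[ℝ] (Fin n → ℝ)}
    {Cl : Fin m → Set (Set (Fin n))} (h : Cut e Cl ((fun x => x + c) ⁻¹' F)) : Cut e Cl F := by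
  intro x hx
  have h1 : x - c ∈ (fun x => x + c) ⁻¹' F := by
    apply h
    intro g S hS
    obtain ⟨z, hz, hzi⟩ := hx g S hS
    refine ⟨z - c, ?_, fun i hi => ?_⟩
    · show z - c + c ∈ F
      rw [sub_add_cancel]
      exact hz
    · rw [map_sub, map_sub, Pi.sub_apply, Pi.sub_apply, hzi i hi]
  have h2 : x - c + c ∈ F := h1
  rwa [sub_add_cancel] at h2

/-- Necessity for `r ≤ 4`, bodies symmetric about the origin. -/
theorem cut_le_four {n r : ℕ} (hr : 1 ≤ r) (hr4 : r ≤ 4)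
    {F : Set (EuclideanSpace ℝ (Fin n))} (h : SymBody F) (hSz : Sz r F) :
    ∃ (m : ℕ) (e : EuclideanSpace ℝ (Fin n) ≃ₗ[ℝ] (Fin n → ℝ)) (grp : Fin n → Fin m)
      (Cl : Fin m → Set (Set (Fin n))), (∀ g, Piece r {i | grp i = g} (Cl g)) ∧ Cut e Cl F := by
  classical
  by_cases h2 : r ≤ 2
  · exact cut_small hr h2 h hSz
  have htop : {f | f ∈ Nrm F ∧ f ∈ (⊤ : Submodule ℝ (EuclideanSpace ℝ (Fin n)))} = Nrm F := by
    ext f
    exact ⟨fun hf => hf.1, fun hf => ⟨hf, trivial⟩⟩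
  have hE : ∀ f ∈ Nrm F, -f ∈ Nrm F := fun f hf => nrm_neg h hf
  apply cut_of_pieces h
  rw [← htop]
  apply has_pieces (Nrm F) r _ _ ⊤ rfl (by rw [htop]; exact nrm_span h)
  · intro k hk hkS
    exact circ_le h hr hSz k hk (fun y hy => (hkS y hy).1)
  · intro T hspan hI hmax hT
    by_cases h3 : r = 3
    · subst h3
      exact has_of_star le_rfl (star_of_indec (Nrm F) hE T hspan hI hmax (by omega))
    · obtain rfl : r = 4 := by omega
      exact Pool.Agent.Helper29.SF.big_piece (Nrm F) hE T hspan hI hmax (by omega)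

/-- Classification for `r ≤ 4`. -/
theorem classify {n r : ℕ} (hr : 1 ≤ r) (hr4 : r ≤ 4) {F : Set (EuclideanSpace ℝ (Fin n))}
    (hc : IsCompact F) (hconv : Convex ℝ F) (hint : (interior F).Nonempty)
    (c : EuclideanSpace ℝ (Fin n)) (hsymm : ∀ x ∈ F, c + c - x ∈ F) :
    Sz r F ↔ ∃ (m : ℕ) (e : EuclideanSpace ℝ (Fin n) ≃ₗ[ℝ] (Fin n → ℝ)) (grp : Fin n → Fin m)
      (Cl : Fin m → Set (Set (Fin n))), (∀ g, Piece r {i | grp i = g} (Cl g)) ∧ Cut e Cl F := by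
  constructor
  · intro h
    obtain ⟨m, e, grp, Cl, h1, h2⟩ :=
      cut_le_four hr hr4 (symBody_of hc hconv hint c hsymm) (sz_recentre c h)
    exact ⟨m, e, grp, Cl, h1, cut_recentre c h2⟩
  · rintro ⟨m, e, grp, Cl, h1, h2⟩
    exact sz_of_cut hconv e grp Cl h1 h2

end Pool.Agent.Helper59.HD5
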