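import Pool.Agent.Helper29.SF.Defs

/-!
# A circuit with five elements gives a `Quint`; level sets of functions on five points
-/

namespace Pool.Agent.Helper59.HD5

open Pool.Agent.Helper59.HD Pool.Agent.Helper29.SF

variable {V : Type} [AddCommGroup V] [Module ℝ V]

/-- A circuit with five elements gives a `Quint`. -/
theorem quint_of_circ {S : Set V} {g : V →₀ ℝ} (hg : Circ ⊥ g) (hgS : ∀ y, g y ≠ 0 → y ∈ S)
    (h5 : g.support.card = 5) : ∃ c : Fin 5 → V, Quint S (⊥ ⊔ spn {y | g y ≠ 0}) c := by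
  classical
  set e : Fin 5 ≃ g.support := (Fintype.equivFinOfCardEq (by
    rw [Fintype.card_coe, h5])).symm with he
  have hinj : Function.Injective (fun i => (e i : V)) :=
    fun i j hij => e.injective (Subtype.ext hij)
  have hne : ∀ i, g (e i) ≠ 0 := fun i => Finsupp.mem_support_iff.1 (e i).2
  have hsur : ∀ y, g y ≠ 0 → ∃ i, (e i : V) = y := by
    intro y hy
    refine ⟨e.symm ⟨y, Finsupp.mem_support_iff.2 hy⟩, ?_⟩
    simp
  have hexp : ∀ h : V →₀ ℝ, (∀ y, g y = 0 → h y = 0) → h = fc (fun i => (e i : V))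
      (fun i => h (e i)) := by
    intro h hh
    ext y
    by_cases hy : g y = 0
    · rw [hh y hy, fc_out]
      intro i hi
      exact hne i (by rw [hi]; exact hy)
    · obtain ⟨i, rfl⟩ := hsur y hy
      exact (fc_val hinj (fun i => h (e i)) i).symm
  refine ⟨fun i => g (e i) • (e i : V), ?_, ?_, ?_, ?_, ?_⟩
  · intro i
    exact ⟨e i, hgS _ (hne i), g (e i), rfl⟩
  · intro i
    apply Submodule.smul_mem
    exact (le_sup_right : spn {y | g y ≠ 0} ≤ _) (subset_spn (hne i))
  · have h1 := hg.2.1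
    rw [Submodule.mem_bot, hexp g (fun y hy => hy), sm_fc] at h1
    rw [← h1]
  · intro y hy
    obtain ⟨t, ht⟩ := hg.2.2 (fc (fun i => (e i : V)) (fun i => y i * g (e i))) (by
      rw [Submodule.mem_bot, sm_fc, ← hy]
      exact Finset.sum_congr rfl (fun i _ => by rw [smul_smul])) (by
      rw [supp_sub_iff]
      intro x hx
      apply fc_out
      intro i hi
      exact hne i (by rw [hi]; exact hx))
    have hyt : ∀ i, y i = t := by
      intro i
      have h1 : (fc (fun i => (e i : V)) (fun i => y i * g (e i))) (e i) = (t • g) (e i) := by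
        rw [ht]
      rw [fc_val hinj, Finsupp.smul_apply, smul_eq_mul] at h1
      exact mul_right_cancel₀ (hne i) h1
    intro i j
    rw [hyt i, hyt j]
  · intro w hw
    rw [bot_sup_eq, mem_spn] at hw
    obtain ⟨h, hh, rfl⟩ := hw
    have hh' : ∀ y, g y = 0 → h y = 0 := by
      intro y hy
      by_contra hne'
      exact hh y hne' hy
    refine ⟨fun i => h (e i) / g (e i), ?_⟩
    rw [hexp h hh', sm_fc]
    refine Finset.sum_congr rfl (fun i _ => ?_)
    rw [smul_smul, div_mul_cancel₀ _ (hne i), ← hexp h hh']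

theorem exists_perm2 : ∀ i k : Fin 5, i ≠ k → ∃ σ : Equiv.Perm (Fin 5), σ 0 = i ∧ σ 1 = k := by
  intro i k h
  refine ⟨(Equiv.swap 1 (Equiv.swap 0 i k)).trans (Equiv.swap 0 i), ?_, ?_⟩
  · revert i k; decide
  · revert i k; decide

theorem exists_perm3 : ∀ i k l : Fin 5, i ≠ k → i ≠ l → k ≠ l →
    ∃ σ : Equiv.Perm (Fin 5), σ 0 = i ∧ σ 1 = k ∧ σ 2 = l := by
  intro i k l h1 h2 h3
  refine ⟨(Equiv.swap 2 (Equiv.swap 1 (Equiv.swap 0 i k) (Equiv.swap 0 i l))).trans
    ((Equiv.swap 1 (Equiv.swap 0 i k)).trans (Equiv.swap 0 i)), ?_, ?_, ?_⟩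
  · revert i k l; decide
  · revert i k l; decide
  · revert i k l; decide

/-- Every level set has at least two elements. -/
def Ev (x : Fin 5 → ℝ) : Prop := ∀ j, 2 ≤ (Finset.univ.filter (fun i => x i = x j)).card

theorem Ev.exists {x : Fin 5 → ℝ} (h : Ev x) (j : Fin 5) : ∃ k, k ≠ j ∧ x k = x j := by
  obtain ⟨k, hk, hkj⟩ := Finset.exists_mem_ne (lt_of_lt_of_le one_lt_two (h j)) j
  exact ⟨k, hkj, (Finset.mem_filter.1 hk).2⟩

theorem Ev.perm {x : Fin 5 → ℝ} (h : Ev x) (σ : Equiv.Perm (Fin 5)) : Ev (fun i => x (σ i)) := by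
  intro j
  refine (h (σ j)).trans (le_of_eq ?_)
  rw [← Finset.card_map σ.symm.toEmbedding]
  congr 1
  ext i
  simp only [Finset.mem_map_equiv, Finset.mem_filter, Finset.mem_univ, true_and,
    Equiv.symm_symm]

/-- At most two values. -/
theorem Ev.two {x : Fin 5 → ℝ} (h : Ev x) (i j k : Fin 5) : x i = x j ∨ x j = x k ∨ x i = x k := by
  classical
  by_contra hcon
  push Not at hcon
  obtain ⟨h1, h2, h3⟩ := hcon
  have hd1 : Disjoint (Finset.univ.filter (fun l => x l = x i))
      (Finset.univ.filter (fun l => x l = x j)) := by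
    rw [Finset.disjoint_left]
    intro l hl hl'
    exact h1 ((Finset.mem_filter.1 hl).2.symm.trans (Finset.mem_filter.1 hl').2)
  have hd2 : Disjoint (Finset.univ.filter (fun l => x l = x i) ∪
      Finset.univ.filter (fun l => x l = x j)) (Finset.univ.filter (fun l => x l = x k)) := by
    rw [Finset.disjoint_left]
    intro l hl hl'
    have hk := (Finset.mem_filter.1 hl').2
    rcases Finset.mem_union.1 hl with hl | hl
    · exact h3 ((Finset.mem_filter.1 hl).2.symm.trans hk)
    · exact h2 ((Finset.mem_filter.1 hl).2.symm.trans hk)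
  have h4 := Finset.card_union_of_disjoint hd1
  have h5 := Finset.card_union_of_disjoint hd2
  have h6 := Finset.card_le_univ ((Finset.univ.filter (fun l => x l = x i) ∪
      Finset.univ.filter (fun l => x l = x j)) ∪ Finset.univ.filter (fun l => x l = x k))
  rw [Fintype.card_fin] at h6
  have h7 := h i
  have h8 := h j
  have h9 := h k
  omega

/-- A function with level sets of size at least two is constant or constant up to a pair. -/
theorem Ev.pair {x : Fin 5 → ℝ} (h : Ev x) : (∀ i j, x i = x j) ∨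
    ∃ (i k : Fin 5) (q : ℝ), i ≠ k ∧ x i = x k ∧ x i ≠ q ∧ ∀ l, l ≠ i → l ≠ k → x l = q := by
  classical
  by_cases hc : ∀ i j, x i = x j
  · exact Or.inl hc
  right
  push Not at hc
  obtain ⟨a, b, hab⟩ := hc
  have hd : Disjoint (Finset.univ.filter (fun l => x l = x a))
      (Finset.univ.filter (fun l => x l = x b)) := by
    rw [Finset.disjoint_left]
    intro l hl hl'
    exact hab ((Finset.mem_filter.1 hl).2.symm.trans (Finset.mem_filter.1 hl').2)
  have h4 := Finset.card_union_of_disjoint hd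
  have h6 := Finset.card_le_univ (Finset.univ.filter (fun l => x l = x a) ∪
      Finset.univ.filter (fun l => x l = x b))
  rw [Fintype.card_fin] at h6
  have h7 := h a
  have h8 := h b
  have hkey : ∀ u v : Fin 5, x u ≠ x v → (Finset.univ.filter (fun l => x l = x u)).card = 2 →
      ∃ (i k : Fin 5) (q : ℝ), i ≠ k ∧ x i = x k ∧ x i ≠ q ∧ ∀ l, l ≠ i → l ≠ k → x l = q := by
    intro u v huv h2
    obtain ⟨i, k, hik, hs⟩ := Finset.card_eq_two.1 h2
    have hi : x i = x u := by
      have : i ∈ Finset.univ.filter (fun l => x l = x u) := by rw [hs]; simp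
      exact (Finset.mem_filter.1 this).2
    have hk : x k = x u := by
      have : k ∈ Finset.univ.filter (fun l => x l = x u) := by rw [hs]; simp
      exact (Finset.mem_filter.1 this).2
    refine ⟨i, k, x v, hik, hi.trans hk.symm, by rw [hi]; exact huv, fun l hli hlk => ?_⟩
    have hl : x l ≠ x u := by
      intro hl
      have : l ∈ Finset.univ.filter (fun l => x l = x u) :=
        Finset.mem_filter.2 ⟨Finset.mem_univ _, hl⟩
      rw [hs] at this
      simp [hli, hlk] at this
    rcases h.two l u v with h9 | h9 | h9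
    · exact absurd h9 hl
    · exact absurd h9 huv
    · exact h9
  have h9 : (Finset.univ.filter (fun l => x l = x a)).card = 2 ∨
      (Finset.univ.filter (fun l => x l = x b)).card = 2 := by omega
  rcases h9 with h9 | h9
  · exact hkey a b hab h9
  · exact hkey b a (Ne.symm hab) h9

theorem ex_fin5 {P : Fin 5 → Prop} (h : ∃ k, P k) : P 0 ∨ P 1 ∨ P 2 ∨ P 3 ∨ P 4 := by
  obtain ⟨k, hk⟩ := h
  fin_cases k
  · exact Or.inl hk
  · exact Or.inr (Or.inl hk)
  · exact Or.inr (Or.inr (Or.inl hk))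
  · exact Or.inr (Or.inr (Or.inr (Or.inl hk)))
  · exact Or.inr (Or.inr (Or.inr (Or.inr hk)))

theorem line_aux {x y : Fin 5 → ℝ} (hx : Ev x) (hy : Ev y) {a : ℝ} (ha : a ≠ 0)
    (h0 : y 0 = x 0 - a) (h1 : y 1 = x 1 - a) (h2 : y 2 = x 2) (h3 : y 3 = x 3)
    (h4 : y 4 = x 4) : x 2 = x 3 := by
  by_contra hne
  have hne' : x 3 ≠ x 2 := fun h => hne h.symm
  have t : ∀ z : ℝ, (z = x 2 ∨ x 2 = x 3 ∨ z = x 3) → z = x 2 ∨ z = x 3 := by
    intro z hz
    rcases hz with h | h | h
    · exact Or.inl h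
    · exact absurd h hne
    · exact Or.inr h
  have a0 := t _ (hx.two 0 2 3)
  have a1 := t _ (hx.two 1 2 3)
  have a4 := t _ (hx.two 4 2 3)
  have b0 := hy.two 0 2 3
  have b1 := hy.two 1 2 3
  rw [h0, h2, h3] at b0
  rw [h1, h2, h3] at b1
  have b0 := t _ b0
  have b1 := t _ b1
  have c2 := ex_fin5 (hx.exists 2)
  have c3 := ex_fin5 (hx.exists 3)
  have d2 := ex_fin5 (hy.exists 2)
  have d3 := ex_fin5 (hy.exists 3)
  simp only [ne_eq, not_true_eq_false, false_and, false_or] at c2 c3 d2 d3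
  rw [h0, h1, h2, h3, h4] at d2 d3
  rcases a0 with a0 | a0 <;> rcases b0 with b0 | b0
  · exact ha (by linarith)
  · rcases a1 with a1 | a1 <;> rcases b1 with b1 | b1
    · exact ha (by linarith)
    · rcases a4 with a4 | a4
      · rcases c3 with ⟨_, c⟩ | ⟨_, c⟩ | ⟨_, c⟩ | ⟨_, c⟩
        · exact hne (by linarith)
        · exact hne (by linarith)
        · exact hne (by linarith)
        · exact hne (by linarith)
      · rcases d2 with ⟨_, c⟩ | ⟨_, c⟩ | ⟨_, c⟩ | ⟨_, c⟩
        · exact hne (by linarith)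
        · exact hne (by linarith)
        · exact hne (by linarith)
        · exact hne (by linarith)
    · exact hne (by linarith)
    · exact ha (by linarith)
  · rcases a1 with a1 | a1 <;> rcases b1 with b1 | b1
    · exact ha (by linarith)
    · exact hne (by linarith)
    · rcases a4 with a4 | a4
      · rcases d3 with ⟨_, c⟩ | ⟨_, c⟩ | ⟨_, c⟩ | ⟨_, c⟩
        · exact hne (by linarith)
        · exact hne (by linarith)
        · exact hne (by linarith)
        · exact hne (by linarith)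
      · rcases c2 with ⟨_, c⟩ | ⟨_, c⟩ | ⟨_, c⟩ | ⟨_, c⟩
        · exact hne (by linarith)
        · exact hne (by linarith)
        · exact hne (by linarith)
        · exact hne (by linarith)
    · exact ha (by linarith)
  · exact ha (by linarith)

/-- Adding a multiple of a pair keeps the level sets large only on the line of the pair. -/
theorem Ev.line {x y : Fin 5 → ℝ} (hx : Ev x) (hy : Ev y) {a : ℝ} (ha : a ≠ 0)
    (h0 : y 0 = x 0 - a) (h1 : y 1 = x 1 - a) (h2 : y 2 = x 2) (h3 : y 3 = x 3)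
    (h4 : y 4 = x 4) : x 0 = x 1 ∧ x 2 = x 3 ∧ x 3 = x 4 := by
  have e23 := line_aux hx hy ha h0 h1 h2 h3 h4
  have e43 : x 4 = x 3 := line_aux (hx.perm (Equiv.swap 2 4)) (hy.perm (Equiv.swap 2 4)) ha
    h0 h1 h4 h3 h2
  refine ⟨?_, e23, e43.symm⟩
  have c0 := ex_fin5 (hx.exists 0)
  have c1 := ex_fin5 (hx.exists 1)
  simp only [ne_eq, not_true_eq_false, false_and, false_or] at c0 c1
  rcases c0 with ⟨_, c⟩ | ⟨_, c⟩ | ⟨_, c⟩ | ⟨_, c⟩
  · exact c.symm
  all_goals
    rcases c1 with ⟨_, d⟩ | ⟨_, d⟩ | ⟨_, d⟩ | ⟨_, d⟩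
    · exact d
    · linarith
    · linarith
    · linarith

end Pool.Agent.Helper59.HD5
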