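import Pool.Agent.Helper59.HD5.SuffA

/-!
# Helly numbers of convex sets cut out by cells: double stars
-/

namespace Pool.Agent.Helper59.HD5

/-- A segment of a convex planar set meets a strip. -/
theorem seg_strip {G : Set (ℝ × ℝ)} (hG : Convex ℝ G) {I : Set ℝ} (hI : Convex ℝ I) {g g' : ℝ × ℝ}
    (hg : g ∈ G) (hg' : g' ∈ G) (h1 : ∃ i ∈ I, i ≤ g.1) (h2 : ∃ i ∈ I, g'.1 ≤ i) :
    ∃ a b : ℝ, 0 ≤ a ∧ 0 ≤ b ∧ a + b = 1 ∧ a • g + b • g' ∈ G ∧ a * g.1 + b * g'.1 ∈ I := by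
  obtain ⟨i, hi, hig⟩ := h1
  obtain ⟨i', hi', hig'⟩ := h2
  by_cases h : g'.1 ∈ I
  · exact ⟨0, 1, le_rfl, zero_le_one, by norm_num, by simpa using hg', by simpa using h⟩
  · have h3 : g'.1 < i := by
      by_contra hcon
      push Not at hcon
      exact h (hI.ordConnected.out hi hi' ⟨hcon, hig'⟩)
    have h4 : 0 < g.1 - g'.1 := by linarith
    have ha : 0 ≤ (i - g'.1) / (g.1 - g'.1) := div_nonneg (by linarith) h4.le
    have hb : 0 ≤ (g.1 - i) / (g.1 - g'.1) := div_nonneg (by linarith) h4.le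
    have hab : (i - g'.1) / (g.1 - g'.1) + (g.1 - i) / (g.1 - g'.1) = 1 := by
      rw [← add_div, div_eq_one_iff_eq h4.ne']
      ring
    refine ⟨_, _, ha, hb, hab, hG hg hg' ha hb hab, ?_⟩
    have : (i - g'.1) / (g.1 - g'.1) * g.1 + (g.1 - i) / (g.1 - g'.1) * g'.1 = i := by
      field_simp
      ring
    rw [this]
    exact hi

theorem comb_low {K : Set ℝ} {a b u v : ℝ} (ha : 0 ≤ a) (hb : 0 ≤ b)
    (hab : a + b = 1) (hu : ∃ j ∈ K, j ≤ u) (hv : ∃ j ∈ K, j ≤ v) : ∃ j ∈ K, j ≤ a * u + b * v := by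
  obtain ⟨j, hj, hju⟩ := hu
  obtain ⟨j', hj', hjv⟩ := hv
  rcases le_total j j' with h | h
  · refine ⟨j, hj, ?_⟩
    have h1 := mul_le_mul_of_nonneg_left hju ha
    have h2 := mul_le_mul_of_nonneg_left (h.trans hjv) hb
    have h3 : j = a * j + b * j := by rw [← add_mul, hab, one_mul]
    linarith
  · refine ⟨j', hj', ?_⟩
    have h1 := mul_le_mul_of_nonneg_left (h.trans hju) ha
    have h2 := mul_le_mul_of_nonneg_left hjv hb
    have h3 : j' = a * j' + b * j' := by rw [← add_mul, hab, one_mul]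
    linarith

theorem comb_up {K : Set ℝ} {a b u v : ℝ} (ha : 0 ≤ a) (hb : 0 ≤ b)
    (hab : a + b = 1) (hu : ∃ j ∈ K, u ≤ j) (hv : ∃ j ∈ K, v ≤ j) : ∃ j ∈ K, a * u + b * v ≤ j := by
  obtain ⟨j, hj, hju⟩ := hu
  obtain ⟨j', hj', hjv⟩ := hv
  rcases le_total j' j with h | h
  · refine ⟨j, hj, ?_⟩
    have h1 := mul_le_mul_of_nonneg_left hju ha
    have h2 := mul_le_mul_of_nonneg_left (hjv.trans h) hb
    have h3 : j = a * j + b * j := by rw [← add_mul, hab, one_mul]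
    linarith
  · refine ⟨j', hj', ?_⟩
    have h1 := mul_le_mul_of_nonneg_left (hju.trans h) ha
    have h2 := mul_le_mul_of_nonneg_left hjv hb
    have h3 : j' = a * j' + b * j' := by rw [← add_mul, hab, one_mul]
    linarith

/-- A convex planar set which meets the four quadrants around a rectangle meets the rectangle. -/
theorem quadrants {G : Set (ℝ × ℝ)} (hG : Convex ℝ G) {I K : Set ℝ} (hI : Convex ℝ I)
    (hK : Convex ℝ K)
    (h1 : ∃ g ∈ G, (∃ i ∈ I, i ≤ g.1) ∧ ∃ j ∈ K, j ≤ g.2)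
    (h2 : ∃ g ∈ G, (∃ i ∈ I, g.1 ≤ i) ∧ ∃ j ∈ K, j ≤ g.2)
    (h3 : ∃ g ∈ G, (∃ i ∈ I, i ≤ g.1) ∧ ∃ j ∈ K, g.2 ≤ j)
    (h4 : ∃ g ∈ G, (∃ i ∈ I, g.1 ≤ i) ∧ ∃ j ∈ K, g.2 ≤ j) :
    ∃ g ∈ G, g.1 ∈ I ∧ g.2 ∈ K := by
  obtain ⟨g1, m1, a1, b1⟩ := h1
  obtain ⟨g2, m2, a2, b2⟩ := h2
  obtain ⟨g3, m3, a3, b3⟩ := h3
  obtain ⟨g4, m4, a4, b4⟩ := h4
  obtain ⟨α, β, hα, hβ, hαβ, hmem, hin⟩ := seg_strip hG hI m1 m2 a1 a2
  obtain ⟨γ, δ, hγ, hδ, hγδ, hmem', hin'⟩ := seg_strip hG hI m3 m4 a3 a4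
  have hl := comb_low hα hβ hαβ b1 b2
  have hu := comb_up hγ hδ hγδ b3 b4
  set p := α • g1 + β • g2 with hp
  set q := γ • g3 + δ • g4 with hq
  have hp1 : p.1 = α * g1.1 + β * g2.1 := by simp [hp]
  have hp2 : p.2 = α * g1.2 + β * g2.2 := by simp [hp]
  have hq1 : q.1 = γ * g3.1 + δ * g4.1 := by simp [hq]
  have hq2 : q.2 = γ * g3.2 + δ * g4.2 := by simp [hq]
  obtain ⟨a, b, ha, hb, hab, -, hin2⟩ := seg_strip (G := Prod.swap ⁻¹' G) (by
    intro x hx y hy a b ha hb hab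
    have := hG hx hy ha hb hab
    exact this) hK (g := (p.2, p.1)) (g' := (q.2, q.1)) hmem hmem' (by rw [hp2]; exact hl)
    (by rw [hq2]; exact hu)
  refine ⟨a • p + b • q, hG hmem hmem' ha hb hab, ?_, ?_⟩
  · have h5 : (a • p + b • q).1 = a * p.1 + b * q.1 := by simp
    rw [h5]
    exact hI (by rw [hp1]; exact hin) (by rw [hq1]; exact hin') ha hb hab
  · have h5 : (a • p + b • q).2 = a * p.2 + b * q.2 := by simp
    rw [h5]
    exact hin2

variable {n : ℕ} {κ : Type} [Fintype κ]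

/-- A double star. -/
theorem double_point (A : κ → Set (Fin n → ℝ)) (hA : ∀ k, Convex ℝ (A k)) {r : ℕ}
    (hyp : ∀ J : Finset κ, J.card ≤ r + 1 → ∃ y, ∀ k ∈ J, y ∈ A k)
    (h4 : 4 ≤ r) (s t : Fin n) (B : Set (Fin n)) : ∃ x, (∀ k, Ag (A k) {s, t} x) ∧
      (∀ i ∈ B, ∀ k, Ag (A k) {s, i} x) ∧ ∀ i, i ∉ B → ∀ k, Ag (A k) {t, i} x := by
  classical
  by_cases hκ : Nonempty κ
  swap
  · rw [not_nonempty_iff] at hκ
    exact ⟨0, fun k => hκ.elim k, fun i _ k => hκ.elim k, fun i _ k => hκ.elim k⟩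
  obtain ⟨k0⟩ := hκ
  have h2 : ∀ u i : Fin n, ({u, i} : Set (Fin n)).ncard ≤ 2 := fun u i =>
    (Set.ncard_insert_le _ _).trans (by rw [Set.ncard_singleton])
  have hy2 : ∀ J : Finset κ, J.card ≤ 2 + 1 → ∃ y, ∀ k ∈ J, y ∈ A k := fun J hJ => hyp J (by omega)
  -- one sided sets for the cells at `u`
  have hlow : ∀ u i : Fin n, ∃ J : Finset κ, J.card ≤ 2 ∧ ∀ y, (∀ k ∈ J, y ∈ A k) →
      ∃ σ ∈ Iv A {u, i} u, σ ≤ y u := fun u i =>
    side_low A hA {u, i} 2 (h2 u i) (Set.mem_insert _ _) hy2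
  have hup : ∀ u i : Fin n, ∃ J : Finset κ, J.card ≤ 2 ∧ ∀ y, (∀ k ∈ J, y ∈ A k) →
      ∃ σ ∈ Iv A {u, i} u, y u ≤ σ := fun u i =>
    side_up A hA {u, i} 2 (h2 u i) (Set.mem_insert _ _) hy2
  -- the planar sets
  set G : κ → Set (ℝ × ℝ) := fun k => {p | ∃ z ∈ A k, z s = p.1 ∧ z t = p.2} with hG
  have hGc : ∀ k, Convex ℝ (G k) := by
    intro k
    rintro p ⟨z1, hz1, e1, f1⟩ q ⟨z2, hz2, e2, f2⟩ α β hα hβ hαβ
    exact ⟨α • z1 + β • z2, hA k hz1 hz2 hα hβ hαβ, by simp [e1, e2], by simp [f1, f2]⟩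
  have hgen : ∀ u : Fin n, ∀ pr : ℝ × ℝ → ℝ, (∀ (a b : ℝ) (p q : ℝ × ℝ),
      pr (a • p + b • q) = a * pr p + b * pr q) → (∀ z : Fin n → ℝ, pr (z s, z t) = z u) →
      ∀ P : Finset κ, P.card ≤ 3 →
      ∃ p : ℝ × ℝ, (∀ k ∈ P, p ∈ G k) ∧ ∀ i, pr p ∈ Iv A {u, i} u := by
    intro u pr hlin hpr P hP
    have hKc : Convex ℝ {σ | ∃ p : ℝ × ℝ, (∀ k ∈ P, p ∈ G k) ∧ pr p = σ} := by
      rintro _ ⟨p, hp, rfl⟩ _ ⟨q, hq, rfl⟩ α β hα hβ hαβ
      exact ⟨α • p + β • q, fun k hk => hGc k (hp k hk) (hq k hk) hα hβ hαβ, hlin α β p q⟩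
    have hcross : ∀ i, (Iv A {u, i} u ∩ {σ | ∃ p : ℝ × ℝ, (∀ k ∈ P, p ∈ G k) ∧ pr p = σ}).Nonempty := by
      intro i
      obtain ⟨J1, c1, p1⟩ := hlow u i
      obtain ⟨J2, c2, p2⟩ := hup u i
      obtain ⟨y, hy⟩ := hyp (P ∪ J1) ((Finset.card_union_le _ _).trans (by omega))
      obtain ⟨y', hy'⟩ := hyp (P ∪ J2) ((Finset.card_union_le _ _).trans (by omega))
      obtain ⟨σ, hσ, hσy⟩ := p1 y (fun k hk => hy k (Finset.mem_union_right _ hk))
      obtain ⟨τ, hτ, hτy⟩ := p2 y' (fun k hk => hy' k (Finset.mem_union_right _ hk))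
      exact meet_one (iv_convex A hA _ _) hKc hσ
        ⟨(y s, y t), fun k hk => ⟨y, hy k (Finset.mem_union_left _ hk), rfl, rfl⟩, hpr y⟩ hσy hτ
        ⟨(y' s, y' t), fun k hk => ⟨y', hy' k (Finset.mem_union_left _ hk), rfl, rfl⟩, hpr y'⟩ hτy
    obtain ⟨τ, hτ⟩ := helly_one (fun o : Option (Fin n) =>
      o.elim {σ | ∃ p : ℝ × ℝ, (∀ k ∈ P, p ∈ G k) ∧ pr p = σ} (fun i => Iv A {u, i} u)) (by
        intro o
        rcases o with _ | i
        · exact hKc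
        · exact iv_convex A hA _ _) (by
        intro o o'
        rcases o with _ | i
        · rcases o' with _ | j
          · obtain ⟨y, hy⟩ := hyp P (by omega)
            exact ⟨y u, ⟨(y s, y t), fun k hk => ⟨y, hy k hk, rfl, rfl⟩, hpr y⟩,
              ⟨(y s, y t), fun k hk => ⟨y, hy k hk, rfl, rfl⟩, hpr y⟩⟩
          · obtain ⟨τ, h1, h2⟩ := hcross j
            exact ⟨τ, h2, h1⟩
        · rcases o' with _ | j
          · exact hcross i
          · exact meet_cells A hA hyp (d := 2) (by omega) (d' := 2) (by omega) (by omega) {u, i}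
              {u, j} (h2 u i) (h2 u j) (Set.mem_insert _ _) (Set.mem_insert _ _))
    obtain ⟨p, hp, hpτ⟩ := hτ none
    exact ⟨p, hp, fun i => by
      rw [hpτ]
      exact hτ (some i)⟩
  have hs := hgen s Prod.fst (fun a b p q => by simp) (fun z => rfl)
  have ht := hgen t Prod.snd (fun a b p q => by simp) (fun z => rfl)
  have hthree : ∀ k i j, ∃ g ∈ G k, g.1 ∈ Iv A {s, i} s ∧ g.2 ∈ Iv A {t, j} t := by
    intro k i j
    obtain ⟨I1, c1, p1⟩ := hlow s i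
    obtain ⟨I2, c2, p2⟩ := hup s i
    obtain ⟨J1, c3, p3⟩ := hlow t j
    obtain ⟨J2, c4, p4⟩ := hup t j
    have hq : ∀ X Y : Finset κ, X.card ≤ 2 → Y.card ≤ 2 → ∃ y ∈ A k, (∀ k' ∈ X, y ∈ A k') ∧
        ∀ k' ∈ Y, y ∈ A k' := by
      intro X Y hX hY
      obtain ⟨y, hy⟩ := hyp (insert k (X ∪ Y)) (by
        have h5 := Finset.card_insert_le k (X ∪ Y)
        have h6 := Finset.card_union_le X Y
        omega)
      exact ⟨y, hy k (Finset.mem_insert_self _ _),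
        fun k' hk' => hy k' (Finset.mem_insert_of_mem (Finset.mem_union_left _ hk')),
        fun k' hk' => hy k' (Finset.mem_insert_of_mem (Finset.mem_union_right _ hk'))⟩
    apply quadrants (hGc k) (iv_convex A hA _ _) (iv_convex A hA _ _)
    · obtain ⟨y, hy, e1, e2⟩ := hq I1 J1 c1 c3
      exact ⟨(y s, y t), ⟨y, hy, rfl, rfl⟩, p1 y e1, p3 y e2⟩
    · obtain ⟨y, hy, e1, e2⟩ := hq I2 J1 c2 c3
      exact ⟨(y s, y t), ⟨y, hy, rfl, rfl⟩, p2 y e1, p3 y e2⟩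
    · obtain ⟨y, hy, e1, e2⟩ := hq I1 J2 c1 c4
      exact ⟨(y s, y t), ⟨y, hy, rfl, rfl⟩, p1 y e1, p4 y e2⟩
    · obtain ⟨y, hy, e1, e2⟩ := hq I2 J2 c2 c4
      exact ⟨(y s, y t), ⟨y, hy, rfl, rfl⟩, p2 y e1, p4 y e2⟩
  -- planar Helly
  have hH := Convex.helly_theorem' (𝕜 := ℝ) (E := ℝ × ℝ)
    (F := fun o : κ ⊕ (Fin n ⊕ Fin n) => (Sum.elim G (Sum.elim
      (fun i => {p : ℝ × ℝ | p.1 ∈ Iv A {s, i} s}) (fun i => {p : ℝ × ℝ | p.2 ∈ Iv A {t, i} t})) o :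
      Set (ℝ × ℝ))) (s := Finset.univ) (by
      rintro (k | i | i) _
      · exact hGc k
      · intro p hp q hq a b ha hb hab
        exact iv_convex A hA {s, i} s hp hq ha hb hab
      · intro p hp q hq a b ha hb hab
        exact iv_convex A hA {t, i} t hp hq ha hb hab) (by
      intro Q _ hQ
      have hfin : Module.finrank ℝ (ℝ × ℝ) = 2 := by
        rw [Module.finrank_prod, Module.finrank_self]
      rw [hfin] at hQ
      have hP3 : (Finset.univ.filter (fun k => (Sum.inl k : κ ⊕ (Fin n ⊕ Fin n)) ∈ Q)).card ≤ 3 := by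
        refine le_trans ?_ hQ
        rw [← Finset.card_image_of_injective (Finset.univ.filter
          (fun k => (Sum.inl k : κ ⊕ (Fin n ⊕ Fin n)) ∈ Q))
          (Sum.inl_injective (α := κ) (β := Fin n ⊕ Fin n))]
        apply Finset.card_le_card
        intro o ho
        obtain ⟨k, hk, rfl⟩ := Finset.mem_image.1 ho
        exact (Finset.mem_filter.1 hk).2
      by_cases hB : ∀ i, (Sum.inr (Sum.inr i) : κ ⊕ (Fin n ⊕ Fin n)) ∉ Q
      · obtain ⟨p, hp, hpi⟩ := hs _ hP3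
        refine ⟨p, Set.mem_iInter₂.2 ?_⟩
        rintro (k | i | i) ho
        · exact hp k (Finset.mem_filter.2 ⟨Finset.mem_univ _, ho⟩)
        · exact hpi i
        · exact absurd ho (hB i)
      by_cases hA' : ∀ i, (Sum.inr (Sum.inl i) : κ ⊕ (Fin n ⊕ Fin n)) ∉ Q
      · obtain ⟨p, hp, hpi⟩ := ht _ hP3
        refine ⟨p, Set.mem_iInter₂.2 ?_⟩
        rintro (k | i | i) ho
        · exact hp k (Finset.mem_filter.2 ⟨Finset.mem_univ _, ho⟩)
        · exact absurd ho (hA' i)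
        · exact hpi i
      by_cases hK : ∀ k, (Sum.inl k : κ ⊕ (Fin n ⊕ Fin n)) ∉ Q
      · obtain ⟨p, _, hpi⟩ := hs ∅ (by simp)
        obtain ⟨q, _, hqi⟩ := ht ∅ (by simp)
        refine ⟨(p.1, q.2), Set.mem_iInter₂.2 ?_⟩
        rintro (k | i | i) ho
        · exact absurd ho (hK k)
        · exact hpi i
        · exact hqi i
      push Not at hB hA' hK
      obtain ⟨j, hj⟩ := hB
      obtain ⟨i, hi⟩ := hA'
      obtain ⟨k, hk⟩ := hK
      have hQe : ({Sum.inl k, Sum.inr (Sum.inl i), Sum.inr (Sum.inr j)} :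
          Finset (κ ⊕ (Fin n ⊕ Fin n))) = Q := by
        apply Finset.eq_of_subset_of_card_le
        · intro o ho
          simp only [Finset.mem_insert, Finset.mem_singleton] at ho
          rcases ho with rfl | rfl | rfl
          · exact hk
          · exact hi
          · exact hj
        · rw [Finset.card_insert_of_notMem (by simp), Finset.card_insert_of_notMem (by simp),
            Finset.card_singleton]
          omega
      obtain ⟨g, hg, hg1, hg2⟩ := hthree k i j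
      refine ⟨g, Set.mem_iInter₂.2 ?_⟩
      intro o ho
      rw [← hQe] at ho
      simp only [Finset.mem_insert, Finset.mem_singleton] at ho
      rcases ho with rfl | rfl | rfl
      · exact hg
      · exact hg1
      · exact hg2)
  obtain ⟨p, hp⟩ := hH
  have hpG : ∀ k, p ∈ G k := fun k => Set.mem_iInter₂.1 hp (Sum.inl k) (Finset.mem_univ _)
  have hpI : ∀ i, p.1 ∈ Iv A {s, i} s := fun i =>
    Set.mem_iInter₂.1 hp (Sum.inr (Sum.inl i)) (Finset.mem_univ _)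
  have hpJ : ∀ i, p.2 ∈ Iv A {t, i} t := fun i =>
    Set.mem_iInter₂.1 hp (Sum.inr (Sum.inr i)) (Finset.mem_univ _)
  obtain ⟨z0, hz0, hz0s, hz0t⟩ := hpG k0
  choose Y hY hYs using hpI
  choose Z hZ hZt using hpJ
  have hx0 : ∀ k, Ag (A k) {s, t} (fun i => if i = s ∨ i = t then z0 i else
      if i ∈ B then Y i i else Z i i) := by
    intro k
    obtain ⟨z, hz, hzs, hzt⟩ := hpG k
    refine ⟨z, hz, fun i hi => ?_⟩
    show z i = if i = s ∨ i = t then z0 i else if i ∈ B then Y i i else Z i i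
    rw [if_pos (show i = s ∨ i = t from hi)]
    rcases hi with rfl | hi
    · rw [hzs, hz0s]
    · rw [Set.mem_singleton_iff] at hi
      rw [hi, hzt, hz0t]
  refine ⟨_, hx0, fun i hi k => ?_, fun i hi k => ?_⟩
  · by_cases h : i = s ∨ i = t
    · refine (hx0 k).mono ?_ (fun _ _ => rfl)
      rintro j (rfl | rfl)
      · exact Or.inl rfl
      · exact h
    · refine (hY i k).mono subset_rfl ?_
      rintro j (rfl | rfl)
      · rw [if_pos (Or.inl rfl), hYs, hz0s]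
      · rw [if_neg h, if_pos hi]
  · by_cases h : i = s ∨ i = t
    · refine (hx0 k).mono ?_ (fun _ _ => rfl)
      rintro j (rfl | rfl)
      · exact Or.inr rfl
      · exact h
    · refine (hZ i k).mono subset_rfl ?_
      rintro j (rfl | rfl)
      · rw [if_pos (Or.inr rfl), hZt, hz0t]
      · rw [if_neg h, if_neg hi]

end Pool.Agent.Helper59.HD5
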