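import Pool.Agent.Helper59.HD5.Defs
import Pool.Agent.Helper59.HD5.SuffB

/-!
# Sufficiency: bodies cut out by admissible cells have property `Sz(r)`
-/

namespace Pool.Agent.Helper59.HD5

open Pool.Agent.Helper59.HD

theorem piece_sub {ι : Type} {r : ℕ} {C : Set ι} {Cl : Set (Set ι)} (h : Piece r C Cl) {S : Set ι}
    (hS : S ∈ Cl) : S ⊆ C := by
  rcases h with ⟨_, rfl⟩ | ⟨_, t, ht, z, hz, z', hz', _, rfl⟩ | ⟨_, s, hs, t, ht, A, rfl⟩
  · rw [Set.mem_singleton_iff] at hS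
    exact hS.subset
  · rcases hS with rfl | ⟨x, hx, rfl⟩
    · rintro i (rfl | rfl | rfl) <;> assumption
    · rintro i (rfl | rfl) <;> assumption
  · rcases hS with rfl | ⟨x, hx, _, rfl⟩ | ⟨x, hx, _, rfl⟩
    · rintro i (rfl | rfl) <;> assumption
    · rintro i (rfl | rfl) <;> assumption
    · rintro i (rfl | rfl) <;> assumption

theorem piece_point {n r : ℕ} {κ : Type} [Fintype κ] (A : κ → Set (Fin n → ℝ))
    (hA : ∀ k, Convex ℝ (A k))
    (hyp : ∀ J : Finset κ, J.card ≤ r + 1 → ∃ y, ∀ k ∈ J, y ∈ A k) (C : Set (Fin n))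
    (Cl : Set (Set (Fin n))) (hP : Piece r C Cl) : ∃ x, ∀ S ∈ Cl, ∀ k, Ag (A k) S x := by
  rcases hP with ⟨hC, rfl⟩ | ⟨h3, t, ht, z, hz, z', hz', hzz, rfl⟩ | ⟨h4, s, hs, t, ht, B, rfl⟩
  · obtain ⟨x, hx⟩ := cell_helly0 A hA C r hC hyp
    refine ⟨x, fun S hS k => ?_⟩
    rw [Set.mem_singleton_iff] at hS
    rw [hS]
    exact hx k
  · have hT : ({t, z, z'} : Set (Fin n)).ncard ≤ r - 1 := by
      by_cases hr3 : r = 3
      · rw [hzz hr3, Set.pair_eq_singleton, hr3]
        exact (Set.ncard_insert_le _ _).trans (by rw [Set.ncard_singleton])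
      · have h1 : ({t, z, z'} : Set (Fin n)).ncard ≤ 3 := by
          refine (Set.ncard_insert_le _ _).trans ?_
          have := Set.ncard_insert_le z ({z'} : Set (Fin n))
          rw [Set.ncard_singleton] at this
          omega
        omega
    obtain ⟨x, hx, hxi⟩ := star_point A hA (d := r - 1) hyp h3 (by omega) {t, z, z'} hT
      (Set.mem_insert _ _)
    refine ⟨x, ?_⟩
    rintro S (rfl | ⟨i, _, rfl⟩) k
    · exact hx k
    · exact hxi i k
  · obtain ⟨x, hx, hxi, hxj⟩ := double_point A hA hyp h4 s t B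
    refine ⟨x, ?_⟩
    rintro S (rfl | ⟨i, _, hi, rfl⟩ | ⟨i, _, hi, rfl⟩) k
    · exact hx k
    · exact hxi i hi k
    · exact hxj i hi k

/-- Convex sets cut out by admissible cells have property `Sz(r)`. -/
theorem sz_of_cut {n m r : ℕ} {F : Set (EuclideanSpace ℝ (Fin n))}
    (hF : Convex ℝ F) (e : EuclideanSpace ℝ (Fin n) ≃ₗ[ℝ] (Fin n → ℝ)) (grp : Fin n → Fin m)
    (Cl : Fin m → Set (Set (Fin n))) (hP : ∀ g, Piece r {i | grp i = g} (Cl g))
    (hC : Cut e Cl F) : Sz r F := by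
  intro s v hv
  set A : Fin s → Set (Fin n → ℝ) := fun k => {y : Fin n → ℝ | e.symm y - v k ∈ F} with hAdef
  have hA : ∀ k, Convex ℝ (A k) := by
    intro k y1 hy1 y2 hy2 α β hα hβ hαβ
    have h1 := hF hy1 hy2 hα hβ hαβ
    have h2 : e.symm (α • y1 + β • y2) - v k =
        α • (e.symm y1 - v k) + β • (e.symm y2 - v k) := by
      have hv' : v k = α • v k + β • v k := by rw [← add_smul, hαβ, one_smul]
      conv_lhs => rw [hv']
      rw [map_add, map_smul, map_smul, smul_sub, smul_sub]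
      abel
    show e.symm (α • y1 + β • y2) - v k ∈ F
    rw [h2]
    exact h1
  have hyp : ∀ J : Finset (Fin s), J.card ≤ r + 1 → ∃ y, ∀ k ∈ J, y ∈ A k := by
    intro J hJ
    obtain ⟨x, hx⟩ := hv J hJ
    refine ⟨e x, fun k hk => ?_⟩
    show e.symm (e x) - v k ∈ F
    rw [LinearEquiv.symm_apply_apply]
    exact hx k hk
  have hpt : ∀ g, ∃ x, ∀ S ∈ Cl g, ∀ k, Ag (A k) S x := fun g =>
    piece_point A hA hyp _ (Cl g) (hP g)
  choose X hX using hpt
  refine ⟨e.symm (fun i => X (grp i) i), fun k => ?_⟩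
  apply hC
  intro g S hS
  obtain ⟨z, hz, hzi⟩ := hX g S hS k
  refine ⟨e.symm z - v k, hz, fun i hi => ?_⟩
  have h1 : grp i = g := piece_sub (hP g) hS hi
  rw [map_sub, map_sub, LinearEquiv.apply_symm_apply, LinearEquiv.apply_symm_apply,
    Pi.sub_apply, Pi.sub_apply, hzi i hi, h1]

end Pool.Agent.Helper59.HD5
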