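import Mathlib

/-!
# Helly numbers of convex sets cut out by cells: one group of coordinates
-/

namespace Pool.Agent.Helper59.HD5

variable {n : ℕ} {κ : Type} [Fintype κ]

/-- `y` agrees on `S` with a point of `A`. -/
def Ag (A : Set (Fin n → ℝ)) (S : Set (Fin n)) (y : Fin n → ℝ) : Prop := ∃ z ∈ A, ∀ i ∈ S, z i = y i

theorem Ag.self {A : Set (Fin n → ℝ)} {S : Set (Fin n)} {y : Fin n → ℝ} (h : y ∈ A) : Ag A S y :=
  ⟨y, h, fun _ _ => rfl⟩

theorem Ag.mono {A : Set (Fin n → ℝ)} {S S' : Set (Fin n)} {y y' : Fin n → ℝ} (h : Ag A S y)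
    (hS : S' ⊆ S) (hy : ∀ i ∈ S', y i = y' i) : Ag A S' y' := by
  obtain ⟨z, hz, hzi⟩ := h
  exact ⟨z, hz, fun i hi => by rw [hzi i (hS hi), hy i hi]⟩

theorem cell_helly0 (A : κ → Set (Fin n → ℝ)) (hA : ∀ k, Convex ℝ (A k)) (S : Set (Fin n))
    (d : ℕ) (hS : S.ncard ≤ d) (h1 : ∀ J : Finset κ, J.card ≤ d + 1 → ∃ y, ∀ k ∈ J, y ∈ A k) :
    ∃ y, ∀ k, Ag (A k) S y := by
  classical
  have hfin : Module.finrank ℝ (S → ℝ) = S.ncard := by
    rw [Module.finrank_fintype_fun_eq_card, ← Nat.card_eq_fintype_card]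
    rfl
  have h := Convex.helly_theorem' (𝕜 := ℝ) (E := S → ℝ)
    (F := fun k : κ => {w : S → ℝ | ∃ z ∈ A k, ∀ i : S, z i = w i}) (s := Finset.univ) (by
      intro k _
      rintro w1 ⟨z1, hz1, e1⟩ w2 ⟨z2, hz2, e2⟩ α β hα hβ hαβ
      exact ⟨α • z1 + β • z2, hA k hz1 hz2 hα hβ hαβ, fun i => by simp [e1 i, e2 i]⟩) (by
      intro I _ hI
      rw [hfin] at hI
      obtain ⟨y, hy⟩ := h1 I (by omega)
      exact ⟨fun i => y i, Set.mem_iInter₂.2 (fun k hk => ⟨y, hy k hk, fun i => rfl⟩)⟩)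
  obtain ⟨w, hw⟩ := h
  refine ⟨fun i => if h : i ∈ S then w ⟨i, h⟩ else 0, fun k => ?_⟩
  obtain ⟨z, hz, hzi⟩ := Set.mem_iInter₂.1 hw k (Finset.mem_univ k)
  refine ⟨z, hz, fun i hi => ?_⟩
  show z i = if h : i ∈ S then w ⟨i, h⟩ else 0
  rw [dif_pos hi]
  exact hzi ⟨i, hi⟩

theorem cell_helly (A : κ → Set (Fin n → ℝ)) (hA : ∀ k, Convex ℝ (A k)) (S : Set (Fin n))
    (d : ℕ) (hS : S.ncard ≤ d) {t : Fin n} (ht : t ∈ S) (H : Set ℝ) (hH : Convex ℝ H)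
    (h1 : ∀ J : Finset κ, J.card ≤ d + 1 → ∃ y, ∀ k ∈ J, y ∈ A k)
    (h2 : ∀ J : Finset κ, J.card ≤ d → ∃ y, (∀ k ∈ J, Ag (A k) S y) ∧ y t ∈ H) :
    ∃ y, (∀ k, Ag (A k) S y) ∧ y t ∈ H := by
  classical
  have hfin : Module.finrank ℝ (S → ℝ) = S.ncard := by
    rw [Module.finrank_fintype_fun_eq_card, ← Nat.card_eq_fintype_card]
    rfl
  have h := Convex.helly_theorem' (𝕜 := ℝ) (E := S → ℝ)
    (F := fun o : Option κ => {w : S → ℝ | (o = none → w ⟨t, ht⟩ ∈ H) ∧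
      ∀ k, o = some k → ∃ z ∈ A k, ∀ i : S, z i = w i}) (s := Finset.univ) (by
      intro o _
      rintro w1 ⟨p1, q1⟩ w2 ⟨p2, q2⟩ α β hα hβ hαβ
      refine ⟨fun ho => hH (p1 ho) (p2 ho) hα hβ hαβ, fun k hk => ?_⟩
      obtain ⟨z1, hz1, e1⟩ := q1 k hk
      obtain ⟨z2, hz2, e2⟩ := q2 k hk
      exact ⟨α • z1 + β • z2, hA k hz1 hz2 hα hβ hαβ, fun i => by simp [e1 i, e2 i]⟩) (by
      intro I _ hI
      rw [hfin] at hI
      by_cases hn : none ∈ I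
      · obtain ⟨y, hy, hyt⟩ := h2 (Finset.eraseNone I) (by
          have := Finset.card_eraseNone_of_mem hn
          omega)
        refine ⟨fun i => y i, Set.mem_iInter₂.2 (fun o ho => ⟨fun _ => hyt, fun k hk => ?_⟩)⟩
        obtain ⟨z, hz, hzi⟩ := hy k (Finset.mem_eraseNone.2 (by rw [← hk]; exact ho))
        exact ⟨z, hz, fun i => hzi i i.2⟩
      · obtain ⟨y, hy⟩ := h1 (Finset.eraseNone I) (by
          have := Finset.card_eraseNone_le (s := I)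
          omega)
        refine ⟨fun i => y i, Set.mem_iInter₂.2 (fun o ho => ⟨fun h0 => ?_, fun k hk => ?_⟩)⟩
        · exact absurd (h0 ▸ ho) hn
        · exact ⟨y, hy k (Finset.mem_eraseNone.2 (by rw [← hk]; exact ho)), fun i => rfl⟩)
  obtain ⟨w, hw⟩ := h
  refine ⟨fun i => if h : i ∈ S then w ⟨i, h⟩ else 0, fun k => ?_, ?_⟩
  · obtain ⟨z, hz, hzi⟩ := (Set.mem_iInter₂.1 hw (some k) (Finset.mem_univ _)).2 k rfl
    refine ⟨z, hz, fun i hi => ?_⟩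
    show z i = if h : i ∈ S then w ⟨i, h⟩ else 0
    rw [dif_pos hi]
    exact hzi ⟨i, hi⟩
  · show (if h : t ∈ S then w ⟨t, h⟩ else 0) ∈ H
    rw [dif_pos ht]
    exact (Set.mem_iInter₂.1 hw none (Finset.mem_univ _)).1 rfl

/-- The values at `t` of the points which agree on `S` with points of all the sets `A k`. -/
def Iv (A : κ → Set (Fin n → ℝ)) (S : Set (Fin n)) (t : Fin n) : Set ℝ :=
  {τ | ∃ y, (∀ k, Ag (A k) S y) ∧ y t = τ}

omit [Fintype κ] in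
theorem iv_convex (A : κ → Set (Fin n → ℝ)) (hA : ∀ k, Convex ℝ (A k)) (S : Set (Fin n))
    (t : Fin n) : Convex ℝ (Iv A S t) := by
  rintro _ ⟨y1, h1, rfl⟩ _ ⟨y2, h2, rfl⟩ α β hα hβ hαβ
  refine ⟨α • y1 + β • y2, fun k => ?_, by simp⟩
  obtain ⟨z1, hz1, e1⟩ := h1 k
  obtain ⟨z2, hz2, e2⟩ := h2 k
  exact ⟨α • z1 + β • z2, hA k hz1 hz2 hα hβ hαβ, fun i hi => by simp [e1 i hi, e2 i hi]⟩

theorem side_low (A : κ → Set (Fin n → ℝ)) (hA : ∀ k, Convex ℝ (A k)) (S : Set (Fin n))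
    (d : ℕ) (hS : S.ncard ≤ d) {t : Fin n} (ht : t ∈ S)
    (h1 : ∀ J : Finset κ, J.card ≤ d + 1 → ∃ y, ∀ k ∈ J, y ∈ A k) :
    ∃ J : Finset κ, J.card ≤ d ∧ ∀ y, (∀ k ∈ J, y ∈ A k) → ∃ σ ∈ Iv A S t, σ ≤ y t := by
  by_contra hcon
  push Not at hcon
  obtain ⟨y, hy, hyt⟩ := cell_helly A hA S d hS ht {τ | ∀ σ ∈ Iv A S t, τ < σ} (by
    intro a ha b hb α β hα hβ hαβ σ hσ
    have h1 := ha σ hσ
    have h2 := hb σ hσ
    have h3 : α * a + β * b < σ := by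
      rcases hα.eq_or_lt with h0 | h0
      · have : β = 1 := by rw [← hαβ, ← h0, zero_add]
        rw [← h0, this]
        linarith
      · have : σ = α * σ + β * σ := by rw [← add_mul, hαβ, one_mul]
        have h4 := mul_lt_mul_of_pos_left h1 h0
        have h5 := mul_le_mul_of_nonneg_left h2.le hβ
        linarith
    exact h3) h1 (fun J hJ => by
      obtain ⟨y, hy, hy2⟩ := hcon J hJ
      exact ⟨y, fun k hk => Ag.self (hy k hk), hy2⟩)
  exact lt_irrefl _ (hyt _ ⟨y, hy, rfl⟩)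

theorem side_up (A : κ → Set (Fin n → ℝ)) (hA : ∀ k, Convex ℝ (A k)) (S : Set (Fin n))
    (d : ℕ) (hS : S.ncard ≤ d) {t : Fin n} (ht : t ∈ S)
    (h1 : ∀ J : Finset κ, J.card ≤ d + 1 → ∃ y, ∀ k ∈ J, y ∈ A k) :
    ∃ J : Finset κ, J.card ≤ d ∧ ∀ y, (∀ k ∈ J, y ∈ A k) → ∃ σ ∈ Iv A S t, y t ≤ σ := by
  by_contra hcon
  push Not at hcon
  obtain ⟨y, hy, hyt⟩ := cell_helly A hA S d hS ht {τ | ∀ σ ∈ Iv A S t, σ < τ} (by
    intro a ha b hb α β hα hβ hαβ σ hσ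
    have h1 := ha σ hσ
    have h2 := hb σ hσ
    have h3 : σ < α * a + β * b := by
      rcases hα.eq_or_lt with h0 | h0
      · have : β = 1 := by rw [← hαβ, ← h0, zero_add]
        rw [← h0, this]
        linarith
      · have : σ = α * σ + β * σ := by rw [← add_mul, hαβ, one_mul]
        have h4 := mul_lt_mul_of_pos_left h1 h0
        have h5 := mul_le_mul_of_nonneg_left h2.le hβ
        linarith
    exact h3) h1 (fun J hJ => by
      obtain ⟨y, hy, hy2⟩ := hcon J hJ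
      exact ⟨y, fun k hk => Ag.self (hy k hk), hy2⟩)
  exact lt_irrefl _ (hyt _ ⟨y, hy, rfl⟩)

/-- Two intervals which do not lie strictly on one side of each other meet. -/
theorem meet_one {I K : Set ℝ} (hI : Convex ℝ I) (hK : Convex ℝ K) {σ σ' τ τ' : ℝ} (h1 : σ ∈ I)
    (h2 : σ' ∈ K) (h3 : σ ≤ σ') (h4 : τ ∈ I) (h5 : τ' ∈ K) (h6 : τ' ≤ τ) : (I ∩ K).Nonempty := by
  have hI' := hI.ordConnected
  have hK' := hK.ordConnected
  rcases le_total σ τ' with h | h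
  · exact ⟨τ', hI'.out h1 h4 ⟨h, h6⟩, h5⟩
  · exact ⟨σ, h1, hK'.out h5 h2 ⟨h, h3⟩⟩

theorem helly_one {ι : Type} [Fintype ι] (K : ι → Set ℝ) (hK : ∀ i, Convex ℝ (K i))
    (hp : ∀ i j, (K i ∩ K j).Nonempty) : ∃ τ, ∀ i, τ ∈ K i := by
  classical
  have h := Convex.helly_theorem' (𝕜 := ℝ) (E := ℝ) (F := K) (s := Finset.univ)
    (fun i _ => hK i) (by
      intro I _ hI
      rw [Module.finrank_self] at hI
      have hc : I.card = 0 ∨ I.card = 1 ∨ I.card = 2 := by omega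
      rcases hc with hc | hc | hc
      · rw [Finset.card_eq_zero] at hc
        subst hc
        exact ⟨0, by simp⟩
      · obtain ⟨a, rfl⟩ := Finset.card_eq_one.1 hc
        obtain ⟨τ, h1, _⟩ := hp a a
        exact ⟨τ, by simpa using h1⟩
      · obtain ⟨a, b, _, rfl⟩ := Finset.card_eq_two.1 hc
        obtain ⟨τ, h1, h2⟩ := hp a b
        exact ⟨τ, by simpa using ⟨h1, h2⟩⟩)
  obtain ⟨τ, hτ⟩ := h
  exact ⟨τ, fun i => Set.mem_iInter₂.1 hτ i (Finset.mem_univ i)⟩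

theorem iv_nonempty (A : κ → Set (Fin n → ℝ)) (hA : ∀ k, Convex ℝ (A k)) (S : Set (Fin n))
    (d : ℕ) (hS : S.ncard ≤ d) (t : Fin n)
    (h1 : ∀ J : Finset κ, J.card ≤ d + 1 → ∃ y, ∀ k ∈ J, y ∈ A k) : (Iv A S t).Nonempty := by
  obtain ⟨y, hy⟩ := cell_helly0 A hA S d hS h1
  exact ⟨y t, y, hy, rfl⟩

/-- The intervals of two cells meet. -/
theorem meet_cells (A : κ → Set (Fin n → ℝ)) (hA : ∀ k, Convex ℝ (A k)) {r d d' : ℕ}
    (hyp : ∀ J : Finset κ, J.card ≤ r + 1 → ∃ y, ∀ k ∈ J, y ∈ A k)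
    (hd : d + 1 ≤ r + 1) (hd' : d' + 1 ≤ r + 1) (hdd : d + d' ≤ r + 1) (S S' : Set (Fin n))
    (hS : S.ncard ≤ d) (hS' : S'.ncard ≤ d') {t : Fin n} (ht : t ∈ S) (ht' : t ∈ S') :
    (Iv A S t ∩ Iv A S' t).Nonempty := by
  classical
  obtain ⟨J1, c1, p1⟩ := side_low A hA S d hS ht (fun J hJ => hyp J (hJ.trans hd))
  obtain ⟨J2, c2, p2⟩ := side_up A hA S d hS ht (fun J hJ => hyp J (hJ.trans hd))
  obtain ⟨K1, c3, p3⟩ := side_low A hA S' d' hS' ht' (fun J hJ => hyp J (hJ.trans hd'))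
  obtain ⟨K2, c4, p4⟩ := side_up A hA S' d' hS' ht' (fun J hJ => hyp J (hJ.trans hd'))
  obtain ⟨x, hx⟩ := hyp (J1 ∪ K2) ((Finset.card_union_le _ _).trans (by omega))
  obtain ⟨x', hx'⟩ := hyp (J2 ∪ K1) ((Finset.card_union_le _ _).trans (by omega))
  obtain ⟨σ, hσ, hσ'⟩ := p1 x (fun k hk => hx k (Finset.mem_union_left _ hk))
  obtain ⟨τ, hτ, hτ'⟩ := p4 x (fun k hk => hx k (Finset.mem_union_right _ hk))
  obtain ⟨σ2, hσ2, hσ2'⟩ := p2 x' (fun k hk => hx' k (Finset.mem_union_left _ hk))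
  obtain ⟨τ2, hτ2, hτ2'⟩ := p3 x' (fun k hk => hx' k (Finset.mem_union_right _ hk))
  exact meet_one (iv_convex A hA S t) (iv_convex A hA S' t) hσ hτ (hσ'.trans hτ') hσ2 hτ2
    (hτ2'.trans hσ2')

/-- A star with one cell `T` more. -/
theorem star_point (A : κ → Set (Fin n → ℝ)) (hA : ∀ k, Convex ℝ (A k)) {r d : ℕ}
    (hyp : ∀ J : Finset κ, J.card ≤ r + 1 → ∃ y, ∀ k ∈ J, y ∈ A k)
    (h3 : 3 ≤ r) (hd : d + 2 ≤ r + 1) (T : Set (Fin n)) (hT : T.ncard ≤ d) {t : Fin n}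
    (ht : t ∈ T) : ∃ x, (∀ k, Ag (A k) T x) ∧ ∀ i k, Ag (A k) {t, i} x := by
  classical
  have h2 : ∀ i : Fin n, ({t, i} : Set (Fin n)).ncard ≤ 2 := fun i => Set.ncard_insert_le _ _ |>.trans (by
    rw [Set.ncard_singleton])
  obtain ⟨τ, hτ⟩ := helly_one (fun o : Option (Fin n) => o.elim (Iv A T t) (fun i => Iv A {t, i} t))
    (by
      intro o
      rcases o with _ | i
      · exact iv_convex A hA _ _
      · exact iv_convex A hA _ _) (by
      intro o o'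
      rcases o with _ | i
      · rcases o' with _ | j
        · have := iv_nonempty A hA T d hT t (fun J hJ => hyp J (by omega))
          show (Iv A T t ∩ Iv A T t).Nonempty
          rwa [Set.inter_self]
        · exact meet_cells A hA hyp (by omega) (d' := 2) (by omega) (by omega) T {t, j} hT (h2 j)
            ht (Set.mem_insert _ _)
      · rcases o' with _ | j
        · exact meet_cells A hA hyp (d := 2) (by omega) (d' := d) (by omega) (by omega) {t, i} T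
            (h2 i) hT (Set.mem_insert _ _) ht
        · exact meet_cells A hA hyp (d := 2) (by omega) (d' := 2) (by omega) (by omega) {t, i}
            {t, j} (h2 i) (h2 j) (Set.mem_insert _ _) (Set.mem_insert _ _))
  obtain ⟨yT, hyT, hyTt⟩ := hτ none
  have hi : ∀ i, ∃ y, (∀ k, Ag (A k) {t, i} y) ∧ y t = τ := fun i => hτ (some i)
  choose Y hY hYt using hi
  have hTx : ∀ k, Ag (A k) T (fun i => if i ∈ T then yT i else Y i i) := by
    intro k
    refine (hyT k).mono subset_rfl (fun i hi => ?_)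
    rw [if_pos hi]
  refine ⟨fun i => if i ∈ T then yT i else Y i i, hTx, fun i k => ?_⟩
  by_cases h : i ∈ T
  · refine (hTx k).mono ?_ (fun _ _ => rfl)
    rintro j (rfl | rfl)
    · exact ht
    · exact h
  · refine (hY i k).mono subset_rfl ?_
    rintro j (rfl | rfl)
    · rw [if_pos ht, hYt, hyTt]
    · rw [if_neg h]

end Pool.Agent.Helper59.HD5
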